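import Mathlib

/-!
# Rotationally symmetric metrics on spheres: definitions

An `O(n)`-invariant Riemannian metric on `S^n` is, in polar coordinates around the two fixed points
(poles), `dr² + f(r)² g_{S^{n-1}}`, `0 < r < L`, where `L` is the distance of the poles.  It closes up
to a smooth metric on `S^n` exactly when `f` extends to a smooth function on `ℝ` that is odd about `0`
and odd about `L`, positive on `(0, L)`, with `f'(0) = 1`, `f'(L) = -1`.
-/

open Real Set MeasureTheory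
open scoped ContDiff

namespace Pool.Agent.H206R2.Rot

/-- The profile functions of smooth metrics `dr² + f(r)² g_{S^{n-1}}` on `S^n`. -/
structure IsProfile (L : ℝ) (f : ℝ → ℝ) : Prop where
  pos : 0 < L
  smooth : ContDiff ℝ ∞ f
  odd_zero : ∀ r, f (-r) = -f r
  odd_L : ∀ r, f (L + r) = -f (L - r)
  fpos : ∀ r, 0 < r → r < L → 0 < f r
  deriv_zero : deriv f 0 = 1
  deriv_L : deriv f L = -1

/-- Extended polar coordinates on `S^n ⊂ ℝ^n × ℝ`: the point at distance `r` from the first pole in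
direction `u ∈ S^{n-1}`, for `0 ≤ r ≤ L`; for all real `r` by continuing the meridian. -/
noncomputable def polar {n : ℕ} (L r : ℝ) (u : EuclideanSpace ℝ (Fin n)) :
    EuclideanSpace ℝ (Fin n) × ℝ :=
  (Real.sin (π * r / L) • u, Real.cos (π * r / L))

/-- `γ` is a geodesic of speed `v` of the metric `dr² + f(r)² g_{S^{n-1}}` on `S^n ⊂ ℝ^n × ℝ`, written
in extended polar coordinates `(r, u)`. -/
def IsGeodesic {n : ℕ} (L : ℝ) (f : ℝ → ℝ) (v : ℝ) (γ : ℝ → EuclideanSpace ℝ (Fin n) × ℝ) : Prop :=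
  ∃ (r : ℝ → ℝ) (u : ℝ → EuclideanSpace ℝ (Fin n)), ContDiff ℝ 2 r ∧ ContDiff ℝ 2 u ∧
    (∀ t, ‖u t‖ = 1) ∧ (∀ t, γ t = polar L (r t) (u t)) ∧
    (∀ t, deriv (deriv r) t = f (r t) * deriv f (r t) * ‖deriv u t‖ ^ 2) ∧
    (∀ t, f (r t) • deriv (deriv u) t + (2 * deriv f (r t) * deriv r t) • deriv u t
      + (f (r t) * ‖deriv u t‖ ^ 2) • u t = 0) ∧
    (∀ t, deriv r t ^ 2 + f (r t) ^ 2 * ‖deriv u t‖ ^ 2 = v ^ 2)

/-- `A(c) = 2 ∫ √(1 - c²/f²)` (over `f > c`): radial action of the geodesics with Clairaut constant `c`. -/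
noncomputable def actA (L : ℝ) (f : ℝ → ℝ) (c : ℝ) : ℝ :=
  2 * ∫ r in Ioo 0 L, √(1 - (c / f r) ^ 2)

/-- `Φ(c) = 2 ∫_{f > c} c / (f √(f² - c²))`: rotation angle of one radial oscillation. -/
noncomputable def rotP (L : ℝ) (f : ℝ → ℝ) (c : ℝ) : ℝ :=
  2 * ∫ r in {r | r ∈ Ioo 0 L ∧ c < f r}, c / (f r * √(f r ^ 2 - c ^ 2))

/-- `T(c) = 2 ∫_{f > c} f / √(f² - c²)`: length of one radial oscillation. -/
noncomputable def timT (L : ℝ) (f : ℝ → ℝ) (c : ℝ) : ℝ :=
  2 * ∫ r in {r | r ∈ Ioo 0 L ∧ c < f r}, f r / √(f r ^ 2 - c ^ 2)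

/-- Structure of a profile below its lowest critical value: `f` increases on `[0,a]` from `0` to `S`,
is `≥ S` on `[a,b]`, and decreases on `[b,L]` from `S` to `0`, with non-zero derivative outside `[a,b]`. -/
structure Wall (L : ℝ) (f : ℝ → ℝ) (S a b : ℝ) : Prop where
  Spos : 0 < S
  apos : 0 < a
  ab : a ≤ b
  bL : b < L
  fa : f a = S
  fb : f b = S
  inc : ∀ r, 0 ≤ r → r ≤ a → 0 < deriv f r
  dec : ∀ r, b ≤ r → r ≤ L → deriv f r < 0
  mid : ∀ r, a ≤ r → r ≤ b → S ≤ f r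

end Pool.Agent.H206R2.Rot
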