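import Pool.Agent.H206R2.Rot.Defs

/-!
# Task B: coarea formula below the lowest critical value (helper501)
-/

set_option autoImplicit false

open Real Set MeasureTheory
open scoped ContDiff

namespace Pool.Agent.H206R2.Rot.TB

theorem tb_piece {f : ℝ → ℝ} (hf : ContDiff ℝ ∞ f) {p q S : ℝ} (hS : 0 < S)
    (hd : ∀ r ∈ Icc p q, deriv f r ≠ 0) (hinj : InjOn f (Icc p q))
    (himgc : f '' Icc p q = Icc 0 S) (himg : f '' Ioo p q = Ioo 0 S) :
    ∃ ν : ℝ → ℝ, Continuous ν ∧ (∀ s, 0 ≤ ν s) ∧ ∀ h : ℝ → ℝ, IntegrableOn h (Ioo 0 S) →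
      IntegrableOn (fun r => h (f r)) (Ioo p q) ∧
        (∫ r in Ioo p q, h (f r)) = ∫ s in Ioo 0 S, h s * ν s := by
  have hmaps : MapsTo f (Icc p q) (Icc 0 S) := by
    rw [← himgc]
    exact mapsTo_image f _
  have hsurj : SurjOn f (Icc p q) (Icc 0 S) := by
    intro y hy
    rw [himgc]
    exact hy
  set e : Icc p q ≃ Icc 0 S := Equiv.ofBijective (hmaps.restrict f _ _)
    ⟨(hmaps.restrict_inj).2 hinj, hmaps.restrict_surjective_iff.2 hsurj⟩ with he
  have hec : Continuous e := by
    have : Continuous (hmaps.restrict f _ _) := hf.continuous.continuousOn.mapsToRestrict hmaps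
    exact this
  have hesymm : Continuous e.symm := (Continuous.homeoOfEquivCompactToT2 hec).symm.continuous
  have hdc : Continuous (deriv f) := hf.continuous_deriv (by simp)
  have he1 : ∀ r (hr : r ∈ Icc p q), e.symm ⟨f r, hmaps hr⟩ = ⟨r, hr⟩ := by
    intro r hr
    rw [Equiv.symm_apply_eq]
    rfl
  refine ⟨fun s => |deriv f (e.symm (projIcc 0 S hS.le s))|⁻¹, ?_, fun s => by positivity, ?_⟩
  · refine Continuous.inv₀ ?_ ?_
    · refine continuous_abs.comp (hdc.comp ?_)
      exact continuous_subtype_val.comp (hesymm.comp continuous_projIcc)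
    · intro s
      rw [abs_ne_zero]
      exact hd _ (e.symm _).2
  · intro h hh
    have hcont : Continuous fun s => |deriv f (e.symm (projIcc 0 S hS.le s))|⁻¹ := by
      refine Continuous.inv₀ ?_ ?_
      · refine continuous_abs.comp (hdc.comp ?_)
        exact continuous_subtype_val.comp (hesymm.comp continuous_projIcc)
      · intro s
        rw [abs_ne_zero]
        exact hd _ (e.symm _).2
    have hI : IntegrableOn (fun s => h s * |deriv f (e.symm (projIcc 0 S hS.le s))|⁻¹)
        (Ioo 0 S) :=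
      hh.mul_continuousOn_of_subset hcont.continuousOn measurableSet_Ioo isCompact_Icc
        Ioo_subset_Icc_self
    have hder : ∀ x ∈ Ioo p q, HasDerivWithinAt f (deriv f x) (Ioo p q) x := by
      intro x _
      exact ((hf.differentiable (by simp)) x).hasDerivAt.hasDerivWithinAt
    have hinj' : InjOn f (Ioo p q) := hinj.mono Ioo_subset_Icc_self
    have key : ∀ r ∈ Ioo p q, |deriv f r| • (h (f r) *
        |deriv f (e.symm (projIcc 0 S hS.le (f r)))|⁻¹) = h (f r) := by
      intro r hr
      have hr' := Ioo_subset_Icc_self hr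
      rw [projIcc_of_mem hS.le (hmaps hr'), he1 r hr']
      have := hd r hr'
      have h2 : |deriv f r| ≠ 0 := abs_ne_zero.2 this
      simp only [smul_eq_mul]
      field_simp
    constructor
    · have h1 := (integrableOn_image_iff_integrableOn_abs_deriv_smul measurableSet_Ioo hder hinj'
        (fun s => h s * |deriv f (e.symm (projIcc 0 S hS.le s))|⁻¹)).1 (by rwa [himg])
      exact h1.congr_fun key measurableSet_Ioo
    · have h1 := integral_image_eq_integral_abs_deriv_smul measurableSet_Ioo hder hinj'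
        (fun s => h s * |deriv f (e.symm (projIcc 0 S hS.le s))|⁻¹)
      rw [himg] at h1
      rw [h1]
      exact setIntegral_congr_fun measurableSet_Ioo (fun r hr => (key r hr).symm)

/-- T2. -/
theorem coarea {L : ℝ} {f : ℝ → ℝ} (hf : IsProfile L f) {S a b : ℝ} (hw : Wall L f S a b) :
    ∃ ν : ℝ → ℝ, Continuous ν ∧ (∀ s, 0 ≤ ν s) ∧
      ∀ h : ℝ → ℝ, IntegrableOn h (Ioo 0 S) →
        IntegrableOn (fun r => h (f r)) (Ioo 0 a ∪ Ioo b L) ∧
        (∫ r in Ioo 0 a ∪ Ioo b L, h (f r)) = ∫ s in Ioo 0 S, h s * ν s := by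
  have hf0 : f 0 = 0 := by
    have := hf.odd_zero 0
    rw [neg_zero] at this
    linarith
  have hfL : f L = 0 := by
    have := hf.odd_L 0
    rw [add_zero, sub_zero] at this
    linarith
  have hcont := hf.smooth.continuous
  -- increasing piece
  have hmono : StrictMonoOn f (Icc 0 a) := by
    apply strictMonoOn_of_deriv_pos (convex_Icc 0 a) hcont.continuousOn
    intro x hx
    rw [interior_Icc] at hx
    exact hw.inc x hx.1.le hx.2.le
  have himgc : f '' Icc 0 a = Icc 0 S := by
    rw [ContinuousOn.image_Icc_of_monotoneOn hw.apos.le hcont.continuousOn hmono.monotoneOn, hf0,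
      hw.fa]
  have himg : f '' Ioo 0 a = Ioo 0 S := by
    ext y
    constructor
    · rintro ⟨x, hx, rfl⟩
      constructor
      · have := hmono ⟨le_rfl, hw.apos.le⟩ (Ioo_subset_Icc_self hx) hx.1
        rwa [hf0] at this
      · have := hmono (Ioo_subset_Icc_self hx) ⟨hw.apos.le, le_rfl⟩ hx.2
        rwa [hw.fa] at this
    · intro hy
      have hy' : y ∈ f '' Icc 0 a := by
        rw [himgc]
        exact Ioo_subset_Icc_self hy
      obtain ⟨x, hx, rfl⟩ := hy'
      refine ⟨x, ⟨lt_of_le_of_ne hx.1 ?_, lt_of_le_of_ne hx.2 ?_⟩, rfl⟩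
      · rintro rfl
        rw [hf0] at hy
        exact lt_irrefl _ hy.1
      · rintro rfl
        rw [hw.fa] at hy
        exact lt_irrefl _ hy.2
  -- decreasing piece
  have hanti : StrictAntiOn f (Icc b L) := by
    apply strictAntiOn_of_deriv_neg (convex_Icc b L) hcont.continuousOn
    intro x hx
    rw [interior_Icc] at hx
    exact hw.dec x hx.1.le hx.2.le
  have himgc2 : f '' Icc b L = Icc 0 S := by
    rw [ContinuousOn.image_Icc_of_antitoneOn hw.bL.le hcont.continuousOn hanti.antitoneOn, hfL,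
      hw.fb]
  have himg2 : f '' Ioo b L = Ioo 0 S := by
    ext y
    constructor
    · rintro ⟨x, hx, rfl⟩
      constructor
      · have := hanti (Ioo_subset_Icc_self hx) ⟨hw.bL.le, le_rfl⟩ hx.2
        rwa [hfL] at this
      · have := hanti ⟨le_rfl, hw.bL.le⟩ (Ioo_subset_Icc_self hx) hx.1
        rwa [hw.fb] at this
    · intro hy
      have hy' : y ∈ f '' Icc b L := by
        rw [himgc2]
        exact Ioo_subset_Icc_self hy
      obtain ⟨x, hx, rfl⟩ := hy'
      refine ⟨x, ⟨lt_of_le_of_ne hx.1 ?_, lt_of_le_of_ne hx.2 ?_⟩, rfl⟩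
      · rintro rfl
        rw [hw.fb] at hy
        exact lt_irrefl _ hy.2
      · rintro rfl
        rw [hfL] at hy
        exact lt_irrefl _ hy.1
  obtain ⟨ν1, h1c, h1n, h1⟩ := tb_piece hf.smooth hw.Spos
    (fun r hr => (hw.inc r hr.1 hr.2).ne') hmono.injOn himgc himg
  obtain ⟨ν2, h2c, h2n, h2⟩ := tb_piece hf.smooth hw.Spos
    (fun r hr => (hw.dec r hr.1 hr.2).ne) hanti.injOn himgc2 himg2
  refine ⟨fun s => ν1 s + ν2 s, h1c.add h2c, fun s => add_nonneg (h1n s) (h2n s), ?_⟩
  intro h hh
  obtain ⟨hi1, he1⟩ := h1 h hh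
  obtain ⟨hi2, he2⟩ := h2 h hh
  have hdisj : Disjoint (Ioo 0 a) (Ioo b L) := by
    rw [Set.disjoint_left]
    intro x hx hx2
    have := hw.ab
    linarith [hx.2, hx2.1]
  refine ⟨hi1.union hi2, ?_⟩
  rw [setIntegral_union hdisj measurableSet_Ioo hi1 hi2, he1, he2]
  simp only [mul_add]
  rw [integral_add]
  · exact hh.mul_continuousOn_of_subset h1c.continuousOn measurableSet_Ioo isCompact_Icc
      Ioo_subset_Icc_self
  · exact hh.mul_continuousOn_of_subset h2c.continuousOn measurableSet_Ioo isCompact_Icc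
      Ioo_subset_Icc_self

end Pool.Agent.H206R2.Rot.TB
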