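import Pool.Agent.H206R2.Rot.Defs

/-!
# Continuity of the rotation angle `Φ` below the lowest critical value
-/

open Real Set MeasureTheory
open scoped ContDiff

namespace Pool.Agent.H206R2.Rot.TC

/-- The kernel of the rotation angle. -/
noncomputable def ker (c s : ℝ) : ℝ := if c < s then c / (s * √(s ^ 2 - c ^ 2)) else 0

theorem continuous_first {ν : ℝ → ℝ} (hν : Continuous ν) {S R₀ : ℝ} :
    ContinuousOn (fun c => ∫ x in (0:ℝ)..√(S ^ 2 - c ^ 2), c * ν (√(c ^ 2 + x ^ 2)) / (c ^ 2 + x ^ 2))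
      (Ioc 0 R₀) := by
  rw [continuousOn_iff_continuous_domRestrict]
  refine intervalIntegral.continuous_parametric_intervalIntegral_of_continuous
    (f := fun (c : Ioc 0 R₀) x => c.1 * ν (√(c.1 ^ 2 + x ^ 2)) / (c.1 ^ 2 + x ^ 2))
    (s := fun c => √(S ^ 2 - c.1 ^ 2)) ?_ ?_
  · refine Continuous.div (by fun_prop) (by fun_prop) ?_
    rintro ⟨c, x⟩
    have := c.2.1
    simp only
    positivity
  · fun_prop

theorem continuous_second {f : ℝ → ℝ} (hf : Continuous f) {S R₀ a b : ℝ} (hS : 0 < S)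
    (hRS : R₀ < S) :
    ContinuousOn (fun c => ∫ r in a..b, c / (max S (f r) * √(max S (f r) ^ 2 - c ^ 2)))
      (Ioc 0 R₀) := by
  rw [continuousOn_iff_continuous_domRestrict]
  refine intervalIntegral.continuous_parametric_intervalIntegral_of_continuous
    (f := fun (c : Ioc 0 R₀) r => c.1 / (max S (f r) * √(max S (f r) ^ 2 - c.1 ^ 2)))
    (s := fun _ => b) ?_ (by fun_prop)
  refine Continuous.div (by fun_prop) (by fun_prop) ?_
  rintro ⟨c, r⟩
  have h1 := c.2.1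
  have h2 := c.2.2
  have h3 : S ≤ max S (f r) := le_max_left _ _
  have h4 : 0 < max S (f r) := lt_of_lt_of_le hS h3
  have h5 : 0 < max S (f r) ^ 2 - (c : ℝ) ^ 2 := by nlinarith
  have h6 : 0 < √(max S (f r) ^ 2 - (c : ℝ) ^ 2) := Real.sqrt_pos.2 h5
  simp only
  positivity

/-- The substitution `s = √(c² + x²)`. -/
theorem hasDerivAt_phi {c : ℝ} (hc : 0 < c) (x : ℝ) :
    HasDerivAt (fun x => √(c ^ 2 + x ^ 2)) (x / √(c ^ 2 + x ^ 2)) x := by
  have h1 : HasDerivAt (fun x : ℝ => c ^ 2 + x ^ 2) (2 * x) x := by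
    have := ((hasDerivAt_id x).pow 2).const_add (c ^ 2)
    simpa using this
  have h2 : c ^ 2 + x ^ 2 ≠ 0 := by positivity
  have := h1.sqrt h2
  convert this using 1
  field_simp

theorem image_phi {c S : ℝ} (hc : 0 < c) (hcS : c < S) :
    (fun x => √(c ^ 2 + x ^ 2)) '' (Ioo 0 √(S ^ 2 - c ^ 2)) = Ioo c S := by
  have hS : 0 < S := hc.trans hcS
  ext s
  constructor
  · rintro ⟨x, ⟨hx0, hx1⟩, rfl⟩
    have h1 : x ^ 2 < S ^ 2 - c ^ 2 := by
      have h2 : √(S ^ 2 - c ^ 2) ^ 2 = S ^ 2 - c ^ 2 := Real.sq_sqrt (by nlinarith)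
      nlinarith
    constructor
    · apply Real.lt_sqrt_of_sq_lt
      nlinarith
    · rw [Real.sqrt_lt' hS]
      linarith
  · rintro ⟨h1, h2⟩
    have h3 : 0 < s ^ 2 - c ^ 2 := by nlinarith
    refine ⟨√(s ^ 2 - c ^ 2), ⟨Real.sqrt_pos.2 h3, ?_⟩, ?_⟩
    · apply Real.sqrt_lt_sqrt h3.le
      nlinarith
    · simp only
      rw [Real.sq_sqrt h3.le]
      rw [show c ^ 2 + (s ^ 2 - c ^ 2) = s ^ 2 by ring]
      exact Real.sqrt_sq (by linarith)

theorem injOn_phi {c S : ℝ} :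
    InjOn (fun x => √(c ^ 2 + x ^ 2)) (Ioo 0 √(S ^ 2 - c ^ 2)) := by
  intro x hx y hy hxy
  simp only at hxy
  have h1 : c ^ 2 + x ^ 2 = c ^ 2 + y ^ 2 := by
    rw [← Real.sq_sqrt (show 0 ≤ c ^ 2 + x ^ 2 by positivity), hxy,
      Real.sq_sqrt (show 0 ≤ c ^ 2 + y ^ 2 by positivity)]
  have h2 : x ^ 2 = y ^ 2 := by linarith
  have := (pow_left_inj₀ hx.1.le hy.1.le (two_ne_zero)).1 h2
  exact this

theorem ker_phi {c x : ℝ} (hc : 0 < c) (hx : 0 < x) :
    |x / √(c ^ 2 + x ^ 2)| * ker c (√(c ^ 2 + x ^ 2)) = c / (c ^ 2 + x ^ 2) := by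
  have h0 : 0 < c ^ 2 + x ^ 2 := by positivity
  have h1 : c < √(c ^ 2 + x ^ 2) := by
    apply Real.lt_sqrt_of_sq_lt
    nlinarith
  have h2 : √(c ^ 2 + x ^ 2) ^ 2 = c ^ 2 + x ^ 2 := Real.sq_sqrt h0.le
  have h3 : √(√(c ^ 2 + x ^ 2) ^ 2 - c ^ 2) = x := by
    rw [h2, show c ^ 2 + x ^ 2 - c ^ 2 = x ^ 2 by ring]
    exact Real.sqrt_sq hx.le
  have h4 : 0 < √(c ^ 2 + x ^ 2) := Real.sqrt_pos.2 h0
  rw [ker, if_pos h1, h3, abs_of_pos (by positivity)]
  set w := √(c ^ 2 + x ^ 2) with hw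
  rw [← h2]
  field_simp

theorem ker_integrable_Ioo {c S : ℝ} (hc : 0 < c) (hcS : c < S) : IntegrableOn (ker c) (Ioo c S) := by
  rw [← image_phi hc hcS]
  rw [integrableOn_image_iff_integrableOn_abs_deriv_smul measurableSet_Ioo
    (fun x _ => (hasDerivAt_phi hc x).hasDerivWithinAt) injOn_phi]
  have h1 : IntegrableOn (fun x => c / (c ^ 2 + x ^ 2)) (Ioo 0 √(S ^ 2 - c ^ 2)) := by
    have h2 : Continuous (fun x : ℝ => c / (c ^ 2 + x ^ 2)) := by
      refine Continuous.div (by fun_prop) (by fun_prop) (fun x => ?_)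
      positivity
    exact (h2.continuousOn.integrableOn_Icc (μ := volume)).mono_set Ioo_subset_Icc_self
  refine h1.congr_fun (fun x hx => ?_) measurableSet_Ioo
  simp only [smul_eq_mul]
  rw [ker_phi hc hx.1]

theorem ker_integrable {c S : ℝ} (hc : 0 < c) (hcS : c < S) : IntegrableOn (ker c) (Ioo 0 S) := by
  have h1 : Ioo 0 S = Ioc 0 c ∪ Ioo c S := (Ioc_union_Ioo_eq_Ioo hc.le hcS).symm
  rw [h1, integrableOn_union]
  refine ⟨?_, ker_integrable_Ioo hc hcS⟩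
  refine (integrableOn_zero).congr_fun (fun x hx => ?_) measurableSet_Ioc
  rw [ker, if_neg (not_lt.2 hx.2)]

theorem first_eq {c S : ℝ} (hc : 0 < c) (hcS : c < S) (ν : ℝ → ℝ) :
    ∫ s in Ioo 0 S, ker c s * ν s =
      ∫ x in (0:ℝ)..√(S ^ 2 - c ^ 2), c * ν (√(c ^ 2 + x ^ 2)) / (c ^ 2 + x ^ 2) := by
  have h1 : ∫ s in Ioo 0 S, ker c s * ν s = ∫ s in Ioo c S, ker c s * ν s := by
    apply setIntegral_eq_of_subset_of_forall_sdiff_eq_zero measurableSet_Ioo
      (Ioo_subset_Ioo_left hc.le)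
    intro x hx
    have : ¬ c < x := fun h => hx.2 ⟨h, hx.1.2⟩
    rw [ker, if_neg this, zero_mul]
  rw [h1, ← image_phi hc hcS,
    integral_image_eq_integral_abs_deriv_smul measurableSet_Ioo
      (fun x _ => (hasDerivAt_phi hc x).hasDerivWithinAt) injOn_phi,
    intervalIntegral.integral_of_le (Real.sqrt_nonneg _), integral_Ioc_eq_integral_Ioo]
  refine setIntegral_congr_fun measurableSet_Ioo (fun x hx => ?_)
  simp only [smul_eq_mul]
  rw [← mul_assoc, ker_phi hc hx.1]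
  ring

theorem rotP_eq {L : ℝ} {f : ℝ → ℝ} (hf : IsProfile L f) {S a b : ℝ}
    (hw : Wall L f S a b) {ν : ℝ → ℝ}
    (hco : ∀ h : ℝ → ℝ, IntegrableOn h (Ioo 0 S) →
        IntegrableOn (fun r => h (f r)) (Ioo 0 a ∪ Ioo b L) ∧
        (∫ r in Ioo 0 a ∪ Ioo b L, h (f r)) = ∫ s in Ioo 0 S, h s * ν s)
    {c : ℝ} (hc : 0 < c) (hcS : c < S) :
    rotP L f c = 2 * ((∫ x in (0:ℝ)..√(S ^ 2 - c ^ 2), c * ν (√(c ^ 2 + x ^ 2)) / (c ^ 2 + x ^ 2)) +
      ∫ r in a..b, c / (max S (f r) * √(max S (f r) ^ 2 - c ^ 2))) := by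
  have hfc : Continuous f := hf.smooth.continuous
  have hS := hw.Spos
  have ha := hw.apos
  have hab := hw.ab
  have hbL := hw.bL
  obtain ⟨hi, he⟩ := hco (ker c) (ker_integrable hc hcS)
  rw [← first_eq hc hcS, ← he, rotP]
  congr 1
  have h1 : ∫ r in {r | r ∈ Ioo 0 L ∧ c < f r}, c / (f r * √(f r ^ 2 - c ^ 2)) =
      ∫ r in Ioo 0 L, ker c (f r) := by
    have h2 : {r | r ∈ Ioo 0 L ∧ c < f r} = Ioo 0 L ∩ {r | c < f r} := rfl
    have hm : MeasurableSet {r | c < f r} := (isOpen_lt continuous_const hfc).measurableSet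
    rw [h2, ← setIntegral_indicator hm]
    refine setIntegral_congr_fun measurableSet_Ioo (fun r _ => ?_)
    by_cases h : c < f r
    · simp only [Set.indicator, Set.mem_ofPred_eq, ker, if_pos h]
    · simp only [Set.indicator, Set.mem_ofPred_eq, ker, if_neg h]
  rw [h1]
  have h3 : Ioo 0 L = (Ioo 0 a ∪ Ioo b L) ∪ Icc a b := by
    ext r
    simp only [mem_Ioo, mem_union, mem_Icc]
    constructor
    · rintro ⟨h1, h2⟩
      rcases lt_or_ge r a with h | h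
      · exact Or.inl (Or.inl ⟨h1, h⟩)
      · rcases le_or_gt r b with h' | h'
        · exact Or.inr ⟨h, h'⟩
        · exact Or.inl (Or.inr ⟨h', h2⟩)
    · rintro ((⟨h1, h2⟩ | ⟨h1, h2⟩) | ⟨h1, h2⟩) <;> constructor <;> linarith
  have h4 : Disjoint (Ioo 0 a ∪ Ioo b L) (Icc a b) := by
    rw [Set.disjoint_left]
    rintro r (⟨h1, h2⟩ | ⟨h1, h2⟩) ⟨h5, h6⟩ <;> linarith
  have h5 : ∀ r ∈ Icc a b, ker c (f r) = c / (max S (f r) * √(max S (f r) ^ 2 - c ^ 2)) := by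
    intro r hr
    have h6 := hw.mid r hr.1 hr.2
    rw [max_eq_right h6, ker, if_pos (lt_of_lt_of_le hcS h6)]
  have h6 : IntegrableOn (fun r => c / (max S (f r) * √(max S (f r) ^ 2 - c ^ 2))) (Icc a b) := by
    have h7 : Continuous (fun r => c / (max S (f r) * √(max S (f r) ^ 2 - c ^ 2))) := by
      refine Continuous.div (by fun_prop) (by fun_prop) ?_
      intro r
      have h3 : S ≤ max S (f r) := le_max_left _ _
      have h4 : 0 < max S (f r) := lt_of_lt_of_le hS h3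
      have h5 : 0 < max S (f r) ^ 2 - c ^ 2 := by nlinarith
      have h6 : 0 < √(max S (f r) ^ 2 - c ^ 2) := Real.sqrt_pos.2 h5
      positivity
    exact h7.continuousOn.integrableOn_Icc
  have h7 : IntegrableOn (fun r => ker c (f r)) (Icc a b) :=
    h6.congr_fun (fun r hr => (h5 r hr).symm) measurableSet_Icc
  rw [h3, setIntegral_union h4 measurableSet_Icc hi h7]
  congr 1
  rw [setIntegral_congr_fun measurableSet_Icc h5, integral_Icc_eq_integral_Ioc,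
    intervalIntegral.integral_of_le hab]

/-- T3, with the change of variables T2 as the hypothesis `hco`. -/
theorem rotP_continuousOn {L : ℝ} {f : ℝ → ℝ} (hf : IsProfile L f) {S a b R₀ : ℝ}
    (hw : Wall L f S a b) (_hR : 0 < R₀) (hRS : R₀ < S)
    (hco : ∃ ν : ℝ → ℝ, Continuous ν ∧ (∀ s, 0 ≤ ν s) ∧
      ∀ h : ℝ → ℝ, IntegrableOn h (Ioo 0 S) →
        IntegrableOn (fun r => h (f r)) (Ioo 0 a ∪ Ioo b L) ∧
        (∫ r in Ioo 0 a ∪ Ioo b L, h (f r)) = ∫ s in Ioo 0 S, h s * ν s) :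
    ContinuousOn (rotP L f) (Ioc 0 R₀) := by
  obtain ⟨ν, hν, -, hν2⟩ := hco
  have h1 := ((continuous_first hν (S := S) (R₀ := R₀)).add
    (continuous_second hf.smooth.continuous (a := a) (b := b) hw.Spos hRS)).const_mul 2
      (M := ℝ)
  refine h1.congr (fun c hc => ?_)
  rw [rotP_eq hf hw hν2 hc.1 (lt_of_le_of_lt hc.2 hRS)]
  rfl

end Pool.Agent.H206R2.Rot.TC
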