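import Pool.Agent.H206R2.Rot.Defs

open Real Set MeasureTheory
open scoped ContDiff

namespace Pool.Agent.H206R2.Rot.TD

/-- the kernel: value of `s / (F √(F² - s²))` outside `s < F` is zero -/
theorem k_zero {s F : ℝ} (hs : 0 ≤ s) (hF : 0 < F) (h : F ≤ s) : s / (F * √(F ^ 2 - s ^ 2)) = 0 := by
  have : F ^ 2 - s ^ 2 ≤ 0 := by nlinarith
  rw [Real.sqrt_eq_zero_of_nonpos this]
  simp

theorem k_nonneg {s F : ℝ} (hs : 0 ≤ s) (hF : 0 < F) : 0 ≤ s / (F * √(F ^ 2 - s ^ 2)) := by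
  positivity

theorem cont_G {F : ℝ} : Continuous fun s : ℝ => -√(1 - (s / F) ^ 2) := by
  fun_prop

theorem sqrt_rel {s F : ℝ} (hF : 0 < F) : F * √(1 - (s / F) ^ 2) = √(F ^ 2 - s ^ 2) := by
  have h1 : F ^ 2 - s ^ 2 = F ^ 2 * (1 - (s / F) ^ 2) := by
    field_simp
  rw [h1, Real.sqrt_mul (by positivity), Real.sqrt_sq hF.le]

theorem deriv_G {s F : ℝ} (hs : 0 < s) (hF : 0 < F) (h : s < F) :
    HasDerivAt (fun s : ℝ => -√(1 - (s / F) ^ 2)) (s / (F * √(F ^ 2 - s ^ 2))) s := by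
  have hlt : (s / F) ^ 2 < 1 := by
    rw [div_pow, div_lt_one (by positivity)]
    nlinarith
  have hne : 1 - (s / F) ^ 2 ≠ 0 := by linarith
  have h1 : HasDerivAt (fun s : ℝ => 1 - (s / F) ^ 2) (-(2 * (s / F) * (1 / F))) s := by
    have h2 : HasDerivAt (fun s : ℝ => s / F) (1 / F) s := (hasDerivAt_id s).div_const F
    have h3 := (h2.pow 2).const_sub 1
    exact h3.congr_deriv (by push_cast; ring)
  have h4 := (h1.sqrt hne).neg
  refine h4.congr_deriv ?_
  have hpos : 0 < √(1 - (s / F) ^ 2) := Real.sqrt_pos.mpr (by linarith)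
  rw [← sqrt_rel hF]
  field_simp

theorem kint_le {F c d : ℝ} (hF : 0 < F) (hc : 0 < c) (hcd : c ≤ d) (hd : d ≤ F) :
    IntervalIntegrable (fun s => s / (F * √(F ^ 2 - s ^ 2))) volume c d ∧
    ∫ s in c..d, s / (F * √(F ^ 2 - s ^ 2)) = √(1 - (c / F) ^ 2) - √(1 - (d / F) ^ 2) := by
  have hder : ∀ x ∈ Ioo c d, HasDerivAt (fun s : ℝ => -√(1 - (s / F) ^ 2))
      (x / (F * √(F ^ 2 - x ^ 2))) x := fun x hx => deriv_G (hc.trans hx.1) hF (hx.2.trans_le hd)
  have hint : IntervalIntegrable (fun s => s / (F * √(F ^ 2 - s ^ 2))) volume c d := by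
    rw [intervalIntegrable_iff_integrableOn_Ioc_of_le hcd]
    exact intervalIntegral.integrableOn_deriv_of_nonneg cont_G.continuousOn hder
      (fun x hx => k_nonneg (hc.trans hx.1).le hF)
  refine ⟨hint, ?_⟩
  rw [intervalIntegral.integral_eq_sub_of_hasDerivAt_of_le hcd cont_G.continuousOn hder hint]
  ring

theorem kint_ge {F c d : ℝ} (hF : 0 < F) (hcd : c ≤ d) (hc : F ≤ c) :
    IntervalIntegrable (fun s => s / (F * √(F ^ 2 - s ^ 2))) volume c d ∧
    ∫ s in c..d, s / (F * √(F ^ 2 - s ^ 2)) = √(1 - (c / F) ^ 2) - √(1 - (d / F) ^ 2) := by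
  have hz : ∀ x ∈ Set.uIoc c d, x / (F * √(F ^ 2 - x ^ 2)) = 0 := by
    intro x hx
    rw [uIoc_of_le hcd] at hx
    exact k_zero (hF.le.trans (hc.trans hx.1.le)) hF (hc.trans hx.1.le)
  have hs : ∀ x, F ≤ x → √(1 - (x / F) ^ 2) = 0 := by
    intro x hx
    apply Real.sqrt_eq_zero_of_nonpos
    have h1 : 1 ≤ x / F := by rwa [le_div_iff₀ hF, one_mul]
    nlinarith
  refine ⟨?_, ?_⟩
  · have : IntervalIntegrable (fun _ : ℝ => (0 : ℝ)) volume c d := intervalIntegrable_const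
    exact this.congr (fun x hx => (hz x hx).symm)
  · rw [hs c hc, hs d (hc.trans hcd),
      intervalIntegral.integral_congr_ae (g := fun _ => (0 : ℝ)) (Filter.Eventually.of_forall hz)]
    simp

theorem kint {F c d : ℝ} (hF : 0 < F) (hc : 0 < c) (hcd : c ≤ d) :
    IntervalIntegrable (fun s => s / (F * √(F ^ 2 - s ^ 2))) volume c d ∧
    ∫ s in c..d, s / (F * √(F ^ 2 - s ^ 2)) = √(1 - (c / F) ^ 2) - √(1 - (d / F) ^ 2) := by
  rcases le_total d F with h | h
  · exact kint_le hF hc hcd h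
  rcases le_total F c with h' | h'
  · exact kint_ge hF hcd h'
  obtain ⟨i1, e1⟩ := kint_le hF hc h' le_rfl
  obtain ⟨i2, e2⟩ := kint_ge hF h le_rfl
  refine ⟨i1.trans i2, ?_⟩
  rw [← intervalIntegral.integral_add_adjacent_intervals i1 i2, e1, e2]
  ring

/-- `rotP` as an integral over `(0, L)` -/
theorem rotP_eq {L : ℝ} {f : ℝ → ℝ} (hf : IsProfile L f) {c : ℝ} (hc : 0 < c) :
    rotP L f c = 2 * ∫ r in Ioo 0 L, c / (f r * √(f r ^ 2 - c ^ 2)) := by
  unfold rotP
  congr 1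
  symm
  apply setIntegral_eq_of_subset_of_forall_sdiff_eq_zero measurableSet_Ioo
  · intro r hr
    exact hr.1
  · intro r hr
    have h1 := hr.1
    have h2 : f r ≤ c := by
      by_contra hcon
      exact hr.2 ⟨h1, not_le.mp hcon⟩
    exact k_zero hc.le (hf.fpos r h1.1 h1.2) h2

/-- T4. -/
theorem actA_sub {L : ℝ} {f : ℝ → ℝ} (hf : IsProfile L f) {S a b R₀ : ℝ}
    (_hw : Wall L f S a b) (_hR : 0 < R₀) (_hRS : R₀ < S) {c d : ℝ} (hc : 0 < c) (hcd : c ≤ d)
    (_hd : d ≤ R₀) :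
    actA L f c - actA L f d = ∫ s in c..d, rotP L f s := by
  have hfc : Continuous f := hf.smooth.continuous
  have hfm : Measurable f := hfc.measurable
  set μ : Measure ℝ := volume.restrict (Ioo 0 L) with hμ
  set ν : Measure ℝ := volume.restrict (Ioc c d) with hν
  have hae : ∀ᵐ r ∂μ, r ∈ Ioo 0 L := ae_restrict_mem measurableSet_Ioo
  have hmeas : Measurable (fun p : ℝ × ℝ => p.2 / (f p.1 * √(f p.1 ^ 2 - p.2 ^ 2))) := by
    fun_prop
  have hsq : ∀ c : ℝ, Measurable fun r => √(1 - (c / f r) ^ 2) := by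
    intro c
    fun_prop
  have hbd : ∀ c : ℝ, ∀ r, ‖√(1 - (c / f r) ^ 2)‖ ≤ 1 := by
    intro c r
    rw [Real.norm_eq_abs, abs_of_nonneg (Real.sqrt_nonneg _)]
    exact Real.sqrt_le_iff.mpr ⟨zero_le_one, by nlinarith [sq_nonneg (c / f r)]⟩
  have hint : ∀ c : ℝ, Integrable (fun r => √(1 - (c / f r) ^ 2)) μ := by
    intro c
    refine Integrable.of_bound (hsq c).aestronglyMeasurable 1 (Filter.Eventually.of_forall (hbd c))
  have hint2 : Integrable (fun p : ℝ × ℝ => p.2 / (f p.1 * √(f p.1 ^ 2 - p.2 ^ 2))) (μ.prod ν) := by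
    rw [integrable_prod_iff hmeas.aestronglyMeasurable]
    constructor
    · filter_upwards [hae] with r hr
      have := (kint (hf.fpos r hr.1 hr.2) hc hcd).1
      rwa [intervalIntegrable_iff_integrableOn_Ioc_of_le hcd] at this
    · have : Integrable (fun r => √(1 - (c / f r) ^ 2) - √(1 - (d / f r) ^ 2)) μ :=
        (hint c).sub (hint d)
      apply this.congr
      filter_upwards [hae] with r hr
      have h1 := (kint (hf.fpos r hr.1 hr.2) hc hcd).2
      rw [intervalIntegral.integral_of_le hcd] at h1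
      rw [← h1]
      apply setIntegral_congr_fun measurableSet_Ioc
      intro s hs
      simp only
      rw [Real.norm_eq_abs, abs_of_nonneg (k_nonneg (hc.le.trans hs.1.le) (hf.fpos r hr.1 hr.2))]
  have hswap := integral_integral_swap (f := fun r s => s / (f r * √(f r ^ 2 - s ^ 2)))
    (μ := μ) (ν := ν) hint2
  have hL : ∫ r, ∫ s, s / (f r * √(f r ^ 2 - s ^ 2)) ∂ν ∂μ =
      ∫ r, (√(1 - (c / f r) ^ 2) - √(1 - (d / f r) ^ 2)) ∂μ := by
    apply integral_congr_ae
    filter_upwards [hae] with r hr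
    have h1 := (kint (hf.fpos r hr.1 hr.2) hc hcd).2
    rw [intervalIntegral.integral_of_le hcd] at h1
    exact h1
  have hRt : ∫ s in c..d, rotP L f s = 2 * ∫ s, ∫ r, s / (f r * √(f r ^ 2 - s ^ 2)) ∂μ ∂ν := by
    rw [intervalIntegral.integral_of_le hcd, ← integral_const_mul]
    apply setIntegral_congr_fun measurableSet_Ioc
    intro s hs
    exact rotP_eq hf (hc.trans_le hs.1.le)
  rw [hRt, ← hswap, hL, integral_sub (hint c) (hint d)]
  unfold actA
  ring

/-- integrability of the kernel in the first variable -/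
theorem h_int {S c : ℝ} (hc : 0 < c) (hcS : c < S) :
    IntegrableOn (fun s => c / (s * √(s ^ 2 - c ^ 2))) (Ioo 0 S) := by
  -- derivative of `arctan (√(s²-c²)/c)`
  have hcont : ContinuousOn (fun s : ℝ => Real.arctan (√(s ^ 2 - c ^ 2) / c)) (Icc c S) := by
    apply Continuous.continuousOn
    exact Real.continuous_arctan.comp (by fun_prop)
  have hder : ∀ x ∈ Ioo c S, HasDerivAt (fun s : ℝ => Real.arctan (√(s ^ 2 - c ^ 2) / c))
      (c / (x * √(x ^ 2 - c ^ 2))) x := by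
    intro x hx
    have hx0 : 0 < x := hc.trans hx.1
    have hpos : 0 < x ^ 2 - c ^ 2 := by nlinarith [hx.1]
    have hsp : 0 < √(x ^ 2 - c ^ 2) := Real.sqrt_pos.mpr hpos
    have h1 : HasDerivAt (fun s : ℝ => s ^ 2 - c ^ 2) (2 * x) x := by
      have := (hasDerivAt_pow 2 x).sub_const (c ^ 2)
      simpa using this
    have h2 := ((h1.sqrt hpos.ne').div_const c).arctan
    convert h2 using 1
    have h3 : √(x ^ 2 - c ^ 2) ^ 2 = x ^ 2 - c ^ 2 := Real.sq_sqrt hpos.le
    have h4 : 1 + (√(x ^ 2 - c ^ 2) / c) ^ 2 = x ^ 2 / c ^ 2 := by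
      rw [div_pow, h3]
      field_simp
      ring
    rw [h4]
    field_simp
  have h1 : IntegrableOn (fun s => c / (s * √(s ^ 2 - c ^ 2))) (Ioc c S) :=
    intervalIntegral.integrableOn_deriv_of_nonneg hcont hder (fun x hx => by
      have : 0 < x := hc.trans hx.1
      positivity)
  have h2 : IntegrableOn (fun s => c / (s * √(s ^ 2 - c ^ 2))) (Ioc 0 c) := by
    have h0 : IntegrableOn (fun _ : ℝ => (0 : ℝ)) (Ioc 0 c) := integrableOn_zero
    apply h0.congr_fun _ measurableSet_Ioc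
    intro s hs
    simp only
    have : s ^ 2 - c ^ 2 ≤ 0 := by nlinarith [hs.1, hs.2]
    rw [Real.sqrt_eq_zero_of_nonpos this]
    simp
  have h3 := h2.union h1
  rw [Ioc_union_Ioc_eq_Ioc hc.le hcS.le] at h3
  exact h3.mono_set Ioo_subset_Ioc_self

/-- the kernel is integrable over `(0, L)` -/
theorem ker_int {L : ℝ} {f : ℝ → ℝ} (hf : IsProfile L f) {S a b : ℝ} (hw : Wall L f S a b)
    (hco : ∃ ν : ℝ → ℝ, Continuous ν ∧ (∀ s, 0 ≤ ν s) ∧
      ∀ h : ℝ → ℝ, IntegrableOn h (Ioo 0 S) →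
        IntegrableOn (fun r => h (f r)) (Ioo 0 a ∪ Ioo b L) ∧
        (∫ r in Ioo 0 a ∪ Ioo b L, h (f r)) = ∫ s in Ioo 0 S, h s * ν s)
    {c : ℝ} (hc : 0 < c) (hcS : c < S) :
    IntegrableOn (fun r => c / (f r * √(f r ^ 2 - c ^ 2))) (Ioo 0 L) := by
  obtain ⟨ν, -, -, hν⟩ := hco
  have h1 := (hν _ (h_int hc hcS)).1
  have hfc : Continuous f := hf.smooth.continuous
  have h2 : IntegrableOn (fun r => c / (f r * √(f r ^ 2 - c ^ 2))) (Icc a b) := by
    apply ContinuousOn.integrableOn_Icc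
    apply ContinuousOn.div continuousOn_const
    · exact (hfc.mul (by fun_prop)).continuousOn
    · intro r hr
      have h3 := hw.mid r hr.1 hr.2
      have h4 : 0 < f r := hw.Spos.trans_le h3
      have h5 : 0 < f r ^ 2 - c ^ 2 := by nlinarith
      exact (mul_pos h4 (Real.sqrt_pos.mpr h5)).ne'
  have h3 := h1.union h2
  apply h3.mono_set
  intro r hr
  rcases lt_or_ge r a with h | h
  · exact Or.inl (Or.inl ⟨hr.1, h⟩)
  rcases le_or_gt r b with h' | h'
  · exact Or.inr ⟨h, h'⟩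
  · exact Or.inl (Or.inr ⟨h', hr.2⟩)

/-- T7. -/
theorem timT_eq {L : ℝ} {f : ℝ → ℝ} (hf : IsProfile L f) {S a b : ℝ}
    (hw : Wall L f S a b)
    (hco : ∃ ν : ℝ → ℝ, Continuous ν ∧ (∀ s, 0 ≤ ν s) ∧
      ∀ h : ℝ → ℝ, IntegrableOn h (Ioo 0 S) →
        IntegrableOn (fun r => h (f r)) (Ioo 0 a ∪ Ioo b L) ∧
        (∫ r in Ioo 0 a ∪ Ioo b L, h (f r)) = ∫ s in Ioo 0 S, h s * ν s)
    {c : ℝ} (hc : 0 < c) (hcS : c < S) :
    timT L f c = actA L f c + c * rotP L f c := by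
  have hfc : Continuous f := hf.smooth.continuous
  have hker := ker_int hf hw hco hc hcS
  have hint : IntegrableOn (fun r => √(1 - (c / f r) ^ 2)) (Ioo 0 L) := by
    refine Integrable.of_bound (by
      have : Measurable fun r => √(1 - (c / f r) ^ 2) := by
        have := hfc.measurable
        fun_prop
      exact this.aestronglyMeasurable) 1 (Filter.Eventually.of_forall ?_)
    intro r
    rw [Real.norm_eq_abs, abs_of_nonneg (Real.sqrt_nonneg _)]
    exact Real.sqrt_le_iff.mpr ⟨zero_le_one, by nlinarith [sq_nonneg (c / f r)]⟩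
  have htim : timT L f c = 2 * ∫ r in Ioo 0 L, f r / √(f r ^ 2 - c ^ 2) := by
    unfold timT
    congr 1
    symm
    apply setIntegral_eq_of_subset_of_forall_sdiff_eq_zero measurableSet_Ioo
    · intro r hr
      exact hr.1
    · intro r hr
      have h1 := hr.1
      have h2 : f r ≤ c := by
        by_contra hcon
        exact hr.2 ⟨h1, not_le.mp hcon⟩
      have h3 : 0 < f r := hf.fpos r h1.1 h1.2
      have h4 : f r ^ 2 - c ^ 2 ≤ 0 := by nlinarith
      rw [Real.sqrt_eq_zero_of_nonpos h4]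
      simp
  rw [htim, rotP_eq hf hc]
  unfold actA
  have hkey : ∫ r in Ioo 0 L, f r / √(f r ^ 2 - c ^ 2) =
      ∫ r in Ioo 0 L, (√(1 - (c / f r) ^ 2) + c * (c / (f r * √(f r ^ 2 - c ^ 2)))) := by
    apply setIntegral_congr_fun measurableSet_Ioo
    intro r hr
    simp only
    have hF : 0 < f r := hf.fpos r hr.1 hr.2
    rcases le_or_gt (f r) c with h | h
    · have h4 : f r ^ 2 - c ^ 2 ≤ 0 := by nlinarith
      have h5 : √(1 - (c / f r) ^ 2) = 0 := by
        have := sqrt_rel (s := c) hF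
        rw [Real.sqrt_eq_zero_of_nonpos h4] at this
        exact (mul_eq_zero.mp this).resolve_left hF.ne'
      rw [Real.sqrt_eq_zero_of_nonpos h4, h5]
      simp
    · have hpos : 0 < f r ^ 2 - c ^ 2 := by nlinarith
      have hsp : 0 < √(f r ^ 2 - c ^ 2) := Real.sqrt_pos.mpr hpos
      have h5 : √(1 - (c / f r) ^ 2) = √(f r ^ 2 - c ^ 2) / f r := by
        rw [← sqrt_rel hF]
        field_simp
      rw [h5]
      have h6 : √(f r ^ 2 - c ^ 2) ^ 2 = f r ^ 2 - c ^ 2 := Real.sq_sqrt hpos.le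
      field_simp
      rw [h6]
      ring
  rw [hkey, integral_add hint (hker.const_mul c), integral_const_mul]
  ring

end Pool.Agent.H206R2.Rot.TD
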