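import Pool.Agent.H206R2.Rot.Defs

open Real Set MeasureTheory
open scoped ContDiff

namespace Pool.Agent.H206R2.Rot.TE

theorem sq_bd (x : ℝ) : ‖√(1 - x ^ 2)‖ ≤ 1 := by
  rw [Real.norm_eq_abs, abs_of_nonneg (Real.sqrt_nonneg _)]
  exact Real.sqrt_le_iff.mpr ⟨zero_le_one, by nlinarith [sq_nonneg x]⟩

/-- T5. -/
theorem actA_continuousOn {L : ℝ} {f : ℝ → ℝ} (hf : IsProfile L f) :
    Continuous (actA L f) ∧ actA L f 0 = 2 * L ∧ ∀ c, 0 ≤ actA L f c := by
  have hm : Measurable f := hf.smooth.continuous.measurable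
  refine ⟨?_, ?_, ?_⟩
  · unfold actA
    apply Continuous.mul continuous_const
    apply MeasureTheory.continuous_of_dominated (bound := fun _ => (1 : ℝ))
    · intro c
      have : Measurable fun r => √(1 - (c / f r) ^ 2) := by fun_prop
      exact this.aestronglyMeasurable
    · intro c
      exact Filter.Eventually.of_forall fun r => sq_bd _
    · exact integrable_const _
    · exact Filter.Eventually.of_forall fun r => by fun_prop
  · unfold actA
    simp [hf.pos.le]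
  · intro c
    unfold actA
    apply mul_nonneg zero_le_two
    exact integral_nonneg fun r => Real.sqrt_nonneg _

/-- the substitution `c = F x` -/
theorem scale_int {F : ℝ} (hF : 0 < F) (m : ℕ) :
    ∫ c in (0:ℝ)..F, √(1 - (c / F) ^ 2) * c ^ m =
      F ^ (m + 1) * ∫ x in (0:ℝ)..1, √(1 - x ^ 2) * x ^ m := by
  have h := intervalIntegral.integral_comp_div (a := 0) (b := F)
    (fun x => √(1 - x ^ 2) * (F * x) ^ m) hF.ne'
  have h2 : ∫ c in (0:ℝ)..F, √(1 - (c / F) ^ 2) * c ^ m =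
      ∫ c in (0:ℝ)..F, √(1 - (c / F) ^ 2) * (F * (c / F)) ^ m := by
    apply intervalIntegral.integral_congr
    intro c _
    simp only
    rw [mul_div_cancel₀ c hF.ne']
  have h3 : ∫ x in (0:ℝ)..1, √(1 - x ^ 2) * (F * x) ^ m =
      F ^ m * ∫ x in (0:ℝ)..1, √(1 - x ^ 2) * x ^ m := by
    rw [← intervalIntegral.integral_const_mul]
    apply intervalIntegral.integral_congr
    intro x _
    simp only
    rw [mul_pow]
    ring
  rw [h2, h, zero_div, div_self hF.ne', smul_eq_mul, h3]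
  ring

theorem int_I (F : ℝ) (m : ℕ) (a b : ℝ) :
    IntervalIntegrable (fun c => √(1 - (c / F) ^ 2) * c ^ m) volume a b :=
  Continuous.intervalIntegrable (by fun_prop) a b

theorem sq_zero {F c : ℝ} (hF : 0 < F) (h : F ≤ c) : √(1 - (c / F) ^ 2) = 0 := by
  apply Real.sqrt_eq_zero_of_nonpos
  have h1 : 1 ≤ c / F := by rwa [le_div_iff₀ hF, one_mul]
  nlinarith

theorem I_le {F R₀ : ℝ} (hF : 0 < F) (hR : 0 < R₀) (m : ℕ) :
    ∫ c in (0:ℝ)..R₀, √(1 - (c / F) ^ 2) * c ^ m ≤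
      F ^ (m + 1) * ∫ x in (0:ℝ)..1, √(1 - x ^ 2) * x ^ m := by
  rw [← scale_int hF]
  rcases le_total R₀ F with h | h
  · rw [← intervalIntegral.integral_add_adjacent_intervals (int_I F m 0 R₀) (int_I F m R₀ F)]
    have : 0 ≤ ∫ c in R₀..F, √(1 - (c / F) ^ 2) * c ^ m := by
      apply intervalIntegral.integral_nonneg h
      intro c hc
      have : 0 ≤ c := hR.le.trans hc.1
      positivity
    linarith
  · rw [← intervalIntegral.integral_add_adjacent_intervals (int_I F m 0 F) (int_I F m F R₀)]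
    have : ∫ c in F..R₀, √(1 - (c / F) ^ 2) * c ^ m = 0 := by
      rw [intervalIntegral.integral_of_le h]
      have h2 : ∫ c in Ioc F R₀, √(1 - (c / F) ^ 2) * c ^ m = ∫ c in Ioc F R₀, (0:ℝ) := by
        apply setIntegral_congr_fun measurableSet_Ioc
        intro c hc
        simp only
        rw [sq_zero hF hc.1.le, zero_mul]
      rw [h2]
      simp
    linarith

theorem I_lt {F R₀ : ℝ} (hR : 0 < R₀) (h : R₀ < F) (m : ℕ) :
    ∫ c in (0:ℝ)..R₀, √(1 - (c / F) ^ 2) * c ^ m <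
      F ^ (m + 1) * ∫ x in (0:ℝ)..1, √(1 - x ^ 2) * x ^ m := by
  have hF : 0 < F := hR.trans h
  rw [← scale_int hF,
    ← intervalIntegral.integral_add_adjacent_intervals (int_I F m 0 R₀) (int_I F m R₀ F)]
  have : 0 < ∫ c in R₀..F, √(1 - (c / F) ^ 2) * c ^ m := by
    apply intervalIntegral.intervalIntegral_pos_of_pos_on (int_I F m R₀ F) _ h
    intro c hc
    have hc0 : 0 < c := hR.trans hc.1
    have h1 : (c / F) ^ 2 < 1 := by
      rw [div_pow, div_lt_one (by positivity)]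
      nlinarith [hc.2]
    have h2 : 0 < √(1 - (c / F) ^ 2) := Real.sqrt_pos.mpr (by linarith)
    positivity
  linarith

/-- half integrals of powers of the sine -/
theorem W_rec (m : ℕ) : ∫ x in (0:ℝ)..(π / 2), Real.sin x ^ (m + 2) =
    (m + 1) / (m + 2) * ∫ x in (0:ℝ)..(π / 2), Real.sin x ^ m := by
  rw [integral_sin_pow]
  simp

theorem V_rec (m : ℕ) : ∫ x in (0:ℝ)..π, Real.sin x ^ (m + 2) =
    (m + 1) / (m + 2) * ∫ x in (0:ℝ)..π, Real.sin x ^ m := by
  rw [integral_sin_pow]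
  simp

theorem VW (m : ℕ) : (∫ x in (0:ℝ)..π, Real.sin x ^ (m + 1)) * ∫ x in (0:ℝ)..(π / 2), Real.sin x ^ m =
    π / (m + 1) := by
  induction m using Nat.twoStepInduction with
  | zero =>
    simp
    ring
  | one =>
    have h1 : ∫ x in (0:ℝ)..π, Real.sin x ^ (1 + 1) = π / 2 := by
      have := V_rec 0
      simp only [zero_add, pow_zero] at this
      rw [show (1 + 1 : ℕ) = 2 from rfl, this]
      simp
      ring
    rw [h1]
    simp
    ring
  | more m ih1 _ =>
    rw [show m + 2 + 1 = (m + 1) + 2 by ring, V_rec, W_rec]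
    have h : ((m + 1 : ℕ) + 1 : ℝ) / ((m + 1 : ℕ) + 2) * (∫ x in (0:ℝ)..π, Real.sin x ^ (m + 1)) *
        ((m + 1) / (m + 2) * ∫ x in (0:ℝ)..(π / 2), Real.sin x ^ m) =
        ((m + 1 : ℕ) + 1 : ℝ) / ((m + 1 : ℕ) + 2) * ((m + 1) / (m + 2)) *
        ((∫ x in (0:ℝ)..π, Real.sin x ^ (m + 1)) * ∫ x in (0:ℝ)..(π / 2), Real.sin x ^ m) := by
      ring
    rw [h, ih1]
    push_cast
    field_simp
    ring

/-- the constant `B` -/
theorem B_eq (m : ℕ) : ∫ x in (0:ℝ)..1, √(1 - x ^ 2) * x ^ m =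
    (1 / (m + 2)) * ∫ x in (0:ℝ)..(π / 2), Real.sin x ^ m := by
  have h := intervalIntegral.integral_comp_mul_deriv (a := 0) (b := π / 2)
    (f := Real.sin) (f' := Real.cos) (g := fun x => √(1 - x ^ 2) * x ^ m)
    (fun x _ => Real.hasDerivAt_sin x) Real.continuous_cos.continuousOn (by fun_prop)
  rw [Real.sin_zero, Real.sin_pi_div_two] at h
  rw [← h]
  have h2 : ∫ x in (0:ℝ)..(π / 2), ((fun x => √(1 - x ^ 2) * x ^ m) ∘ Real.sin) x * Real.cos x =
      ∫ x in (0:ℝ)..(π / 2), (Real.sin x ^ m - Real.sin x ^ (m + 2)) := by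
    apply intervalIntegral.integral_congr
    intro x hx
    rw [uIcc_of_le (by positivity)] at hx
    have hc : 0 ≤ Real.cos x := Real.cos_nonneg_of_mem_Icc ⟨by linarith [hx.1, Real.pi_pos], hx.2⟩
    simp only [Function.comp]
    have h3 : √(1 - Real.sin x ^ 2) = Real.cos x := by
      rw [← Real.cos_sq', Real.sqrt_sq hc]
    rw [h3]
    have h4 : Real.cos x * Real.cos x = 1 - Real.sin x ^ 2 := by
      rw [← Real.cos_sq']; ring
    calc Real.cos x * Real.sin x ^ m * Real.cos x = (Real.cos x * Real.cos x) * Real.sin x ^ m := by ring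
      _ = Real.sin x ^ m - Real.sin x ^ (m + 2) := by rw [h4]; ring
  rw [h2, intervalIntegral.integral_sub
    (Continuous.intervalIntegrable (by fun_prop) _ _) (Continuous.intervalIntegrable (by fun_prop) _ _),
    W_rec]
  field_simp
  ring

theorem lower_int {R₀ : ℝ} (m : ℕ) :
    ∫ c in (0:ℝ)..R₀, 2 * π * (R₀ - c) * c ^ m = 2 * π * R₀ ^ (m + 2) / ((m + 1) * (m + 2)) := by
  have h1 : ∀ c : ℝ, 2 * π * (R₀ - c) * c ^ m = 2 * π * R₀ * c ^ m - 2 * π * c ^ (m + 1) := by
    intro c; ring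
  simp only [h1]
  rw [intervalIntegral.integral_sub
    (Continuous.intervalIntegrable (by fun_prop) _ _) (Continuous.intervalIntegrable (by fun_prop) _ _),
    intervalIntegral.integral_const_mul, intervalIntegral.integral_const_mul, integral_pow,
    integral_pow]
  push_cast
  field_simp
  ring

/-- T6. -/
theorem volume_bound {L : ℝ} {f : ℝ → ℝ} (hf : IsProfile L f) {n : ℕ} (hn : 2 ≤ n) {R₀ : ℝ}
    (hR : 0 < R₀) (hA : ∀ c, 0 ≤ c → c ≤ R₀ → 2 * π * (R₀ - c) ≤ actA L f c)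
    (hbig : ∃ r, 0 < r ∧ r < L ∧ R₀ < f r) :
    R₀ ^ n * (∫ t in (0 : ℝ)..π, Real.sin t ^ (n - 1)) < ∫ r in (0 : ℝ)..L, f r ^ (n - 1) := by
  obtain ⟨m, rfl⟩ := Nat.exists_eq_add_of_le' hn
  rw [show m + 2 - 1 = m + 1 by omega]
  have hfc : Continuous f := hf.smooth.continuous
  have hfm : Measurable f := hfc.measurable
  set B := ∫ x in (0:ℝ)..1, √(1 - x ^ 2) * x ^ m with hB
  set μ : Measure ℝ := volume.restrict (Ioo 0 L) with hμ
  set ν : Measure ℝ := volume.restrict (Ioc 0 R₀) with hν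
  have hact : Continuous (actA L f) := (actA_continuousOn hf).1
  -- lower bound
  have h1 : 2 * π * R₀ ^ (m + 2) / ((m + 1) * (m + 2)) ≤ ∫ c in (0:ℝ)..R₀, actA L f c * c ^ m := by
    rw [← lower_int]
    apply intervalIntegral.integral_mono_on hR.le
      (Continuous.intervalIntegrable (by fun_prop) _ _)
      (Continuous.intervalIntegrable (by fun_prop) _ _)
    intro c hc
    exact mul_le_mul_of_nonneg_right (hA c hc.1 hc.2) (pow_nonneg hc.1 m)
  -- Fubini
  have hmeas : Measurable (fun p : ℝ × ℝ => √(1 - (p.2 / f p.1) ^ 2) * p.2 ^ m) := by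
    fun_prop
  have hint : Integrable (fun p : ℝ × ℝ => √(1 - (p.2 / f p.1) ^ 2) * p.2 ^ m) (μ.prod ν) := by
    have hb : ∀ᵐ p ∂(μ.prod ν), ‖√(1 - (p.2 / f p.1) ^ 2) * p.2 ^ m‖ ≤ R₀ ^ m := by
      have : μ.prod ν = (volume.prod volume).restrict (Ioo 0 L ×ˢ Ioc 0 R₀) := by
        rw [hμ, hν, Measure.prod_restrict]
      rw [this]
      filter_upwards [ae_restrict_mem (measurableSet_Ioo.prod measurableSet_Ioc)] with p hp
      rw [norm_mul]
      have h2 : ‖p.2 ^ m‖ ≤ R₀ ^ m := by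
        rw [norm_pow, Real.norm_eq_abs, abs_of_pos hp.2.1]
        exact pow_le_pow_left₀ hp.2.1.le hp.2.2 m
      calc _ ≤ 1 * R₀ ^ m := mul_le_mul (sq_bd _) h2 (norm_nonneg _) zero_le_one
        _ = R₀ ^ m := one_mul _
    exact Integrable.of_bound hmeas.aestronglyMeasurable _ hb
  have hswap := integral_integral_swap (f := fun r c => √(1 - (c / f r) ^ 2) * c ^ m)
    (μ := μ) (ν := ν) hint
  have h2 : ∫ c in (0:ℝ)..R₀, actA L f c * c ^ m =
      2 * ∫ r, ∫ c, √(1 - (c / f r) ^ 2) * c ^ m ∂ν ∂μ := by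
    rw [hswap, intervalIntegral.integral_of_le hR.le, ← integral_const_mul]
    apply integral_congr_ae
    apply Filter.Eventually.of_forall
    intro c
    simp only
    unfold actA
    rw [integral_mul_const, mul_assoc]
  -- comparison
  have hIm : Integrable (fun r => ∫ c, √(1 - (c / f r) ^ 2) * c ^ m ∂ν) μ := hint.integral_prod_left
  have hfi : Integrable (fun r => f r ^ (m + 1) * B) μ := by
    have h3 : IntegrableOn (fun r => f r ^ (m + 1) * B) (Icc 0 L) :=
      (Continuous.continuousOn (by fun_prop)).integrableOn_Icc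
    exact h3.mono_set Ioo_subset_Icc_self
  have h3 : ∫ r, ∫ c, √(1 - (c / f r) ^ 2) * c ^ m ∂ν ∂μ < ∫ r, f r ^ (m + 1) * B ∂μ := by
    rw [← sub_pos, ← integral_sub hfi hIm]
    rw [integral_pos_iff_support_of_nonneg_ae]
    · obtain ⟨r₀, hr0, hrL, hrR⟩ := hbig
      have hopen : IsOpen (Ioo 0 L ∩ {r | R₀ < f r}) := isOpen_Ioo.inter (isOpen_lt continuous_const hfc)
      have hpos : 0 < volume (Ioo 0 L ∩ {r | R₀ < f r}) :=
        hopen.measure_pos volume ⟨r₀, ⟨hr0, hrL⟩, hrR⟩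
      have hμpos : 0 < μ (Ioo 0 L ∩ {r | R₀ < f r}) := by
        rw [hμ, Measure.restrict_apply hopen.measurableSet]
        have : Ioo 0 L ∩ {r | R₀ < f r} ∩ Ioo 0 L = Ioo 0 L ∩ {r | R₀ < f r} := by
          ext x; simp; tauto
        rwa [this]
      refine hμpos.trans_le (measure_mono ?_)
      intro r hr
      rw [Function.mem_support]
      have := I_lt hR hr.2 m
      rw [intervalIntegral.integral_of_le hR.le] at this
      have h4 : ∫ c, √(1 - (c / f r) ^ 2) * c ^ m ∂ν < f r ^ (m + 1) * B := this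
      exact (sub_pos.mpr h4).ne'
    · have hae : ∀ᵐ r ∂μ, r ∈ Ioo 0 L := ae_restrict_mem measurableSet_Ioo
      filter_upwards [hae] with r hr
      have := I_le (hf.fpos r hr.1 hr.2) hR m
      rw [intervalIntegral.integral_of_le hR.le] at this
      simp only [Pi.zero_apply]
      have h4 : ∫ c, √(1 - (c / f r) ^ 2) * c ^ m ∂ν ≤ f r ^ (m + 1) * B := this
      linarith
    · exact hfi.sub hIm
  have h4 : ∫ r, f r ^ (m + 1) * B ∂μ = B * ∫ r in (0:ℝ)..L, f r ^ (m + 1) := by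
    rw [integral_mul_const, intervalIntegral.integral_of_le hf.pos.le, hμ,
      integral_Ioc_eq_integral_Ioo, mul_comm]
  -- constants
  have hVW := VW m
  set V := ∫ x in (0:ℝ)..π, Real.sin x ^ (m + 1) with hV
  set W := ∫ x in (0:ℝ)..(π / 2), Real.sin x ^ m with hW
  have hWpos : 0 < W := by
    apply intervalIntegral.intervalIntegral_pos_of_pos_on
      (Continuous.intervalIntegrable (by fun_prop) _ _) _ (by positivity)
    intro x hx
    have := Real.sin_pos_of_pos_of_lt_pi hx.1 (by linarith [hx.2, Real.pi_pos])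
    positivity
  have hBW : B = (1 / (m + 2)) * W := B_eq m
  have h5 : 2 * π * R₀ ^ (m + 2) / ((m + 1) * (m + 2)) <
      2 * (B * ∫ r in (0:ℝ)..L, f r ^ (m + 1)) := by
    rw [← h4]
    calc _ ≤ _ := h1
      _ = _ := h2
      _ < _ := by linarith
  rw [hBW] at h5
  set J := ∫ r in (0:ℝ)..L, f r ^ (m + 1) with hJ
  have hm1 : (0:ℝ) < (m:ℝ) + 1 := by positivity
  have hm2 : (0:ℝ) < (m:ℝ) + 2 := by positivity
  have h6 : 2 * π * R₀ ^ (m + 2) / ((m + 1) * (m + 2)) =
      (2 / (m + 2)) * W * (R₀ ^ (m + 2) * V) := by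
    have : R₀ ^ (m + 2) * V * W = R₀ ^ (m + 2) * (π / (m + 1)) := by rw [mul_assoc, hVW]
    calc 2 * π * R₀ ^ (m + 2) / ((m + 1) * (m + 2)) =
        (2 / (m + 2)) * (R₀ ^ (m + 2) * (π / (m + 1))) := by field_simp
      _ = (2 / (m + 2)) * (R₀ ^ (m + 2) * V * W) := by rw [this]
      _ = _ := by ring
  rw [h6] at h5
  have h7 : 2 * ((1 / ((m:ℝ) + 2)) * W * J) = (2 / (m + 2)) * W * J := by ring
  rw [h7] at h5
  exact lt_of_mul_lt_mul_left h5 (by positivity)

end Pool.Agent.H206R2.Rot.TE
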