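import Pool.Agent.H206R2.Rot.Defs

/-! Task F: the oscillating geodesic with Clairaut constant `c`. -/

open Real Set MeasureTheory
open scoped ContDiff Topology

namespace Pool.Agent.H206R2.Rot.TF

/-- turning points -/
lemma turning {L : ℝ} {f : ℝ → ℝ} (hf : IsProfile L f) {S a b : ℝ}
    (hw : Wall L f S a b) {c : ℝ} (hc : 0 < c) (hcS : c < S) :
    ∃ p q, 0 < p ∧ p < q ∧ q < L ∧ f p = c ∧ f q = c ∧ 0 < deriv f p ∧ deriv f q < 0 ∧
      (∀ x, 0 < x → x < L → (c < f x ↔ p < x ∧ x < q)) := by
  have hfc : Continuous f := hf.smooth.continuous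
  have f0 : f 0 = 0 := by
    have := hf.odd_zero 0
    simp at this
    linarith
  have fL : f L = 0 := by
    have := hf.odd_L 0
    simp at this
    linarith
  have hinc : StrictMonoOn f (Icc 0 a) := by
    apply strictMonoOn_of_deriv_pos (convex_Icc 0 a) hfc.continuousOn
    intro x hx
    rw [interior_Icc] at hx
    exact hw.inc x hx.1.le hx.2.le
  have hdec : StrictAntiOn f (Icc b L) := by
    apply strictAntiOn_of_deriv_neg (convex_Icc b L) hfc.continuousOn
    intro x hx
    rw [interior_Icc] at hx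
    exact hw.dec x hx.1.le hx.2.le
  have ha := hw.apos
  have hab := hw.ab
  have hbL := hw.bL
  have hfa := hw.fa
  have hfb := hw.fb
  obtain ⟨p, hp, hpc⟩ : ∃ p ∈ Icc 0 a, f p = c :=
    intermediate_value_Icc ha.le hfc.continuousOn ⟨by rw [f0]; exact hc.le, by rw [hfa]; exact hcS.le⟩
  obtain ⟨q, hq, hqc⟩ : ∃ q ∈ Icc b L, f q = c :=
    intermediate_value_Icc' hbL.le hfc.continuousOn ⟨by rw [fL]; exact hc.le, by rw [hfb]; exact hcS.le⟩
  have hp0 : 0 < p := by
    rcases hp.1.lt_or_eq with h | h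
    · exact h
    · rw [← h, f0] at hpc; linarith
  have hpa : p < a := by
    rcases hp.2.lt_or_eq with h | h
    · exact h
    · rw [h, hfa] at hpc; linarith
  have hqL : q < L := by
    rcases hq.2.lt_or_eq with h | h
    · exact h
    · rw [h, fL] at hqc; linarith
  have hbq : b < q := by
    rcases hq.1.lt_or_eq with h | h
    · exact h
    · rw [← h, hfb] at hqc; linarith
  refine ⟨p, q, hp0, by linarith, hqL, hpc, hqc, hw.inc p hp.1 hp.2, hw.dec q hq.1 hq.2, ?_⟩
  intro x hx0 hxL
  rcases le_or_gt x a with hxa | hxa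
  · have h1 : c < f x ↔ p < x := by
      rw [← hpc]
      exact hinc.lt_iff_lt hp ⟨hx0.le, hxa⟩
    rw [h1]
    constructor
    · intro h; exact ⟨h, by linarith⟩
    · intro h; exact h.1
  · rcases le_or_gt x b with hxb | hxb
    · have h1 := hw.mid x hxa.le hxb
      constructor
      · intro _; exact ⟨by linarith, by linarith⟩
      · intro _; linarith
    · have h1 : c < f x ↔ x < q := by
        rw [← hqc]
        exact hdec.lt_iff_gt hq ⟨hxb.le, hxL.le⟩
      rw [h1]
      constructor
      · intro h; exact ⟨by linarith, h⟩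
      · intro h; exact h.2

/-- factorisation of `f² - c²` -/
lemma factor {f : ℝ → ℝ} (hf : ContDiff ℝ ∞ f) {c p q : ℝ} (hc : 0 < c) (hpq : p < q)
    (hp : f p = c) (hq : f q = c) (hp' : 0 < deriv f p) (hq' : deriv f q < 0)
    (hin : ∀ x, p < x → x < q → c < f x) :
    ∃ k : ℝ → ℝ, Continuous k ∧ (∀ x, f x ^ 2 - c ^ 2 = (x - p) * (q - x) * k x) ∧
      ∀ x ∈ Icc p q, 0 < k x := by
  have hfd : Differentiable ℝ f := hf.differentiable (by simp)
  set g : ℝ → ℝ := fun x => f x ^ 2 - c ^ 2 with hg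
  have hgd : Differentiable ℝ g := (hfd.pow 2).sub_const _
  have hgd' : ∀ x, deriv g x = 2 * f x * deriv f x := by
    intro x
    have h1 : HasDerivAt (fun y => f y ^ 2 - c ^ 2) ((2 : ℕ) * f x ^ (2 - 1) * deriv f x) x :=
      ((hfd x).hasDerivAt.pow 2).sub_const (c ^ 2)
    rw [hg, h1.deriv]
    norm_num
  have hgp : g p = 0 := by simp [hg, hp]
  have hgq : g q = 0 := by simp [hg, hq]
  set g1 := dslope g p with hg1
  have e1 : ∀ x, g x = (x - p) * g1 x := by
    intro x
    have := sub_smul_dslope g p x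
    rw [hgp, sub_zero, smul_eq_mul] at this
    exact this.symm
  have hg1c : Continuous g1 := by
    rw [continuous_iff_continuousAt]
    intro x
    by_cases hx : x = p
    · subst hx
      exact continuousAt_dslope_same.2 (hgd x)
    · exact (continuousAt_dslope_of_ne hx).2 (hgd x).continuousAt
  have hg1d : DifferentiableAt ℝ g1 q := (differentiableAt_dslope_of_ne hpq.ne').2 (hgd q)
  have hg1q : g1 q = 0 := by
    have := e1 q
    rw [hgq] at this
    rcases mul_eq_zero.1 this.symm with h | h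
    · linarith
    · exact h
  set g2 := dslope g1 q with hg2
  have e2 : ∀ x, g1 x = (x - q) * g2 x := by
    intro x
    have := sub_smul_dslope g1 q x
    rw [hg1q, sub_zero, smul_eq_mul] at this
    exact this.symm
  have hg2c : Continuous g2 := by
    rw [continuous_iff_continuousAt]
    intro x
    by_cases hx : x = q
    · subst hx
      exact continuousAt_dslope_same.2 hg1d
    · exact (continuousAt_dslope_of_ne hx).2 hg1c.continuousAt
  refine ⟨fun x => -g2 x, hg2c.neg, ?_, ?_⟩
  · intro x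
    have h1 : f x ^ 2 - c ^ 2 = g x := rfl
    rw [h1, e1 x, e2 x]
    ring
  · intro x hx
    rcases hx.1.lt_or_eq with h | h
    · rcases hx.2.lt_or_eq with h' | h'
      · have h1 : 0 < g x := by
          have := hin x h h'
          simp only [hg]
          nlinarith
        rw [e1, e2] at h1
        have h2 : 0 < (x - p) * (q - x) := mul_pos (by linarith) (by linarith)
        by_contra hcon
        push Not at hcon
        have h3 : (x - p) * (q - x) * (-g2 x) ≤ 0 :=
          mul_nonpos_of_nonneg_of_nonpos h2.le hcon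
        nlinarith
      · subst h'
        -- at the right end
        have h1 : g2 x = deriv g1 x := dslope_same g1 x
        have h2 : HasDerivAt g (1 * g1 x + (x - p) * deriv g1 x) x := by
          have h3 : HasDerivAt (fun y => (y - p) * g1 y) (1 * g1 x + (x - p) * deriv g1 x) x :=
            ((hasDerivAt_id x).sub_const p).mul hg1d.hasDerivAt
          have h4 : g = fun y => (y - p) * g1 y := funext e1
          rw [h4]
          exact h3
        have h5 := h2.deriv
        rw [hgd' x, hg1q, hq, ← h1] at h5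
        have h6 : 2 * c * deriv f x < 0 := by nlinarith
        have h7 : (x - p) * g2 x < 0 := by linarith
        have h8 : 0 < x - p := by linarith
        by_contra hcon
        push Not at hcon
        nlinarith
    · -- left end
      have h1 : g1 p = deriv g p := dslope_same g p
      rw [hgd' p, hp, e2 p] at h1
      rw [← h]
      have h2 : 0 < 2 * c * deriv f p := by positivity
      rw [← h1] at h2
      by_contra hcon
      push Not at hcon
      nlinarith

/-- clock change: a positive continuous function bounded below has a global primitive with a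
`C^1` inverse -/
lemma clock {V : ℝ → ℝ} (hV : Continuous V) {v₀ : ℝ} (hv₀ : 0 < v₀) (hVv : ∀ x, v₀ ≤ V x)
    {P : ℝ} (hper : ∀ x, V (x + P) = V x) :
    ∃ τ ϕ : ℝ → ℝ, (∀ x, HasDerivAt τ (V x) x) ∧ τ 0 = 0 ∧ (∀ x, ϕ (τ x) = x) ∧
      (∀ t, τ (ϕ t) = t) ∧ (∀ t, HasDerivAt ϕ (V (ϕ t))⁻¹ t) ∧
      (∀ x, τ (x + P) = τ x + ∫ y in (0 : ℝ)..P, V y) ∧
      (∀ t, ϕ (t + ∫ y in (0 : ℝ)..P, V y) = ϕ t + P) := by
  set τ : ℝ → ℝ := fun x => ∫ y in (0 : ℝ)..x, V y with hτ
  have hVi : ∀ a b, IntervalIntegrable V volume a b := fun a b => hV.intervalIntegrable a b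
  have hd : ∀ x, HasDerivAt τ (V x) x := fun x =>
    intervalIntegral.integral_hasDerivAt_right (hVi 0 x) (hV.stronglyMeasurableAtFilter _ _)
      hV.continuousAt
  have hτc : Continuous τ := continuous_iff_continuousAt.2 fun x => (hd x).continuousAt
  have hmono : StrictMono τ := by
    apply strictMono_of_deriv_pos
    intro x
    rw [(hd x).deriv]
    exact hv₀.trans_le (hVv x)
  have hτ0 : τ 0 = 0 := by simp [hτ]
  have hge : ∀ x, 0 ≤ x → v₀ * x ≤ τ x := by
    intro x hx
    have h1 : ∫ _ in (0 : ℝ)..x, v₀ ≤ ∫ y in (0 : ℝ)..x, V y :=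
      intervalIntegral.integral_mono_on hx (by simp) (hVi 0 x) (fun y _ => hVv y)
    rw [intervalIntegral.integral_const, smul_eq_mul, sub_zero] at h1
    linarith
  have hle : ∀ x, x ≤ 0 → τ x ≤ v₀ * x := by
    intro x hx
    have h1 : ∫ _ in x..(0 : ℝ), v₀ ≤ ∫ y in x..(0 : ℝ), V y :=
      intervalIntegral.integral_mono_on hx (by simp) (hVi x 0) (fun y _ => hVv y)
    rw [intervalIntegral.integral_const, smul_eq_mul, zero_sub] at h1
    have h2 : τ x = - ∫ y in x..(0 : ℝ), V y := by
      simp only [hτ]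
      rw [intervalIntegral.integral_symm]
    linarith
  have htop : Filter.Tendsto τ Filter.atTop Filter.atTop := by
    apply Filter.tendsto_atTop_mono' _ _ (Filter.tendsto_id.const_mul_atTop hv₀)
    filter_upwards [Filter.eventually_ge_atTop 0] with x hx
    exact hge x hx
  have hbot : Filter.Tendsto τ Filter.atBot Filter.atBot := by
    apply Filter.tendsto_atBot_mono' _ _ (Filter.tendsto_id.const_mul_atBot hv₀)
    filter_upwards [Filter.eventually_le_atBot 0] with x hx
    exact hle x hx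
  have hsurj : Function.Surjective τ := hτc.surjective htop hbot
  let e := hmono.orderIsoOfSurjective τ hsurj
  have he : ∀ x, e x = τ x := fun x => rfl
  have hl : ∀ x, e.symm (τ x) = x := fun x => e.symm_apply_apply x
  have hr : ∀ t, τ (e.symm t) = t := fun t => e.apply_symm_apply t
  have hec : Continuous e.symm := e.symm.continuous
  have hshift : ∀ x, τ (x + P) = τ x + ∫ y in (0 : ℝ)..P, V y := by
    intro x
    have h1 : τ (x + P) = τ x + ∫ y in x..(x + P), V y := by
      simp only [hτ]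
      rw [intervalIntegral.integral_add_adjacent_intervals (hVi _ _) (hVi _ _)]
    rw [h1]
    congr 1
    have hp : Function.Periodic V P := hper
    have := hp.intervalIntegral_add_eq x 0
    rw [zero_add] at this
    exact this
  refine ⟨τ, e.symm, hd, hτ0, hl, hr, ?_, hshift, ?_⟩
  · intro t
    refine HasDerivAt.of_local_left_inverse hec.continuousAt (hd _)
      (hv₀.trans_le (hVv _)).ne' (Filter.Eventually.of_forall hr)
  · intro t
    apply hmono.injective
    rw [hr, hshift, hr]

/-- square roots of differentiable functions chosen continuously -/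
lemma hasDerivAt_root {g E : ℝ → ℝ} {E' t : ℝ} (hg : Continuous g) (hE : ∀ s, g s ^ 2 = E s)
    (hE' : HasDerivAt E E' t) (ht : g t ≠ 0) : HasDerivAt g (E' / (2 * g t)) t := by
  have hEt : E t ≠ 0 := by rw [← hE]; exact pow_ne_zero 2 ht
  have h1 := hE'.sqrt hEt
  rcases lt_or_gt_of_ne ht with h | h
  · have h2 : √(E t) = - g t := by
      rw [← hE, Real.sqrt_sq_eq_abs, abs_of_neg h]
    rw [h2] at h1
    have h3 := h1.neg
    have h4 : -(E' / (2 * -g t)) = E' / (2 * g t) := by
      rw [mul_neg, div_neg, neg_neg]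
    rw [h4] at h3
    refine h3.congr_of_eventuallyEq ?_
    filter_upwards [hg.continuousAt.eventually (gt_mem_nhds h)] with s hs
    show g s = - √(E s)
    rw [← hE, Real.sqrt_sq_eq_abs, abs_of_neg hs, neg_neg]
  · have h2 : √(E t) = g t := by
      rw [← hE, Real.sqrt_sq_eq_abs, abs_of_pos h]
    rw [h2] at h1
    refine h1.congr_of_eventuallyEq ?_
    filter_upwards [hg.continuousAt.eventually (lt_mem_nhds h)] with s hs
    show g s = √(E s)
    rw [← hE, Real.sqrt_sq_eq_abs, abs_of_pos hs]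

lemma contDiff_two_of {r p K : ℝ → ℝ} (h1 : ∀ t, HasDerivAt r (p t) t)
    (h2 : ∀ t, HasDerivAt p (K t) t) (h3 : Continuous K) : ContDiff ℝ 2 r := by
  have e1 : deriv r = p := funext fun t => (h1 t).deriv
  have e2 : deriv p = K := funext fun t => (h2 t).deriv
  have hp : ContDiff ℝ 1 p := by
    rw [contDiff_one_iff_deriv]
    exact ⟨fun t => (h2 t).differentiableAt, by rw [e2]; exact h3⟩
  rw [show (2 : WithTop ℕ∞) = 1 + 1 by norm_num, contDiff_succ_iff_deriv]
  refine ⟨fun t => (h1 t).differentiableAt, by simp, ?_⟩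
  rw [e1]
  exact hp

/-- the change of variables `x = m + A sin φ` -/
lemma cov {f k : ℝ → ℝ} {c p q : ℝ} (hpq : p < q) (hkc : Continuous k)
    (hk : ∀ x, f x ^ 2 - c ^ 2 = (x - p) * (q - x) * k x) (hkpos : ∀ x ∈ Icc p q, 0 < k x)
    {G : ℝ → ℝ} (hG : Continuous fun φ : ℝ => G ((p + q) / 2 + (q - p) / 2 * sin φ)) :
    2 * ∫ x in Ioo p q, G x / √(f x ^ 2 - c ^ 2) =
      ∫ φ in (0 : ℝ)..(2 * π), G ((p + q) / 2 + (q - p) / 2 * sin φ) /
        √(k ((p + q) / 2 + (q - p) / 2 * sin φ)) := by
  set m := (p + q) / 2 with hm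
  set A := (q - p) / 2 with hA
  have hA0 : 0 < A := by rw [hA]; linarith
  set X : ℝ → ℝ := fun φ => m + A * sin φ with hX
  have hXI : ∀ φ, X φ ∈ Icc p q := by
    intro φ
    have h1 := Real.neg_one_le_sin φ
    have h2 := Real.sin_le_one φ
    simp only [hX]
    constructor <;> nlinarith
  have hXc : Continuous X := by fun_prop
  set H : ℝ → ℝ := fun φ => G (X φ) / √(k (X φ)) with hH
  have hHc : Continuous H := by
    refine hG.div (Real.continuous_sqrt.comp (hkc.comp hXc)) ?_
    intro φ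
    exact (Real.sqrt_pos.2 (hkpos _ (hXI φ))).ne'
  have himg : X '' Icc (-(π / 2)) (π / 2) = Icc p q := by
    have h1 := Real.bijOn_sin.image_eq
    have h2 : X '' Icc (-(π / 2)) (π / 2) = (fun y => m + A * y) '' (sin '' Icc (-(π / 2)) (π / 2)) := by
      rw [image_image]
    rw [h2, h1]
    ext x
    simp only [mem_image, mem_Icc]
    constructor
    · rintro ⟨y, ⟨hy1, hy2⟩, rfl⟩
      constructor <;> nlinarith
    · rintro ⟨hx1, hx2⟩
      refine ⟨(x - m) / A, ⟨?_, ?_⟩, ?_⟩
      · rw [le_div_iff₀ hA0]; linarith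
      · rw [div_le_iff₀ hA0]; linarith
      · field_simp; ring
  have hinj : InjOn X (Icc (-(π / 2)) (π / 2)) := by
    intro x hx y hy hxy
    apply Real.injOn_sin hx hy
    simp only [hX] at hxy
    exact mul_left_cancel₀ hA0.ne' (add_left_cancel hxy)
  have hder : ∀ φ ∈ Icc (-(π / 2)) (π / 2),
      HasDerivWithinAt X (A * cos φ) (Icc (-(π / 2)) (π / 2)) φ := by
    intro φ _
    exact (((Real.hasDerivAt_sin φ).const_mul A).const_add m).hasDerivWithinAt
  have h1 : ∫ x in Ioo p q, G x / √(f x ^ 2 - c ^ 2) = ∫ φ in (-(π / 2))..(π / 2), H φ := by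
    rw [← integral_Icc_eq_integral_Ioo, ← himg,
      integral_image_eq_integral_abs_deriv_smul measurableSet_Icc hder hinj,
      integral_Icc_eq_integral_Ioo, intervalIntegral.integral_of_le (by linarith [Real.pi_pos]),
      ← integral_Ioc_eq_integral_Ioo.symm]
    refine setIntegral_congr_fun measurableSet_Ioo ?_
    intro φ hφ
    have hcos : 0 < cos φ := Real.cos_pos_of_mem_Ioo hφ
    have hAc : 0 < A * cos φ := mul_pos hA0 hcos
    simp only [smul_eq_mul, hH]
    have h2 : f (X φ) ^ 2 - c ^ 2 = (A * cos φ) ^ 2 * k (X φ) := by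
      rw [hk]
      congr 1
      simp only [hX]
      have := Real.sin_sq_add_cos_sq φ
      have h3 : cos φ ^ 2 = 1 - sin φ ^ 2 := by linarith
      rw [mul_pow, h3]
      have e1 : m - p = A := by rw [hm, hA]; ring
      have e2 : q - m = A := by rw [hm, hA]; ring
      have e3 : m + A * sin φ - p = A + A * sin φ := by rw [← e1]; ring
      have e4 : q - (m + A * sin φ) = A - A * sin φ := by rw [← e2]; ring
      rw [e3, e4]
      ring
    rw [h2, Real.sqrt_mul (sq_nonneg _), Real.sqrt_sq hAc.le, abs_of_pos hAc]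
    have h3 : 0 < √(k (X φ)) := Real.sqrt_pos.2 (hkpos _ (hXI φ))
    field_simp
  have hsym : ∀ φ, H (π - φ) = H φ := by
    intro φ
    simp only [hH, hX, Real.sin_pi_sub]
  have hHper : Function.Periodic H (2 * π) := by
    intro φ
    simp only [hH, hX, Real.sin_add_two_pi]
  have h4 : ∫ φ in (0 : ℝ)..(2 * π), H φ = ∫ φ in (-(π / 2))..(-(π / 2) + 2 * π), H φ := by
    have := hHper.intervalIntegral_add_eq 0 (-(π / 2))
    rw [zero_add] at this
    exact this
  have h5 : ∫ φ in (π / 2)..(-(π / 2) + 2 * π), H φ = ∫ φ in (-(π / 2))..(π / 2), H φ := by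
    have := intervalIntegral.integral_comp_sub_left (a := -(π / 2)) (b := π / 2) H π
    simp_rw [hsym] at this
    rw [this]
    congr 1
    · ring
    · ring
  rw [h1, h4, ← intervalIntegral.integral_add_adjacent_intervals (a := -(π / 2)) (b := π / 2)
    (c := -(π / 2) + 2 * π) (hHc.intervalIntegrable _ _) (hHc.intervalIntegrable _ _), h5]
  ring

/-- T8. -/
theorem exists_planar {L : ℝ} {f : ℝ → ℝ} (hf : IsProfile L f) {S a b : ℝ}
    (hw : Wall L f S a b) {c : ℝ} (hc : 0 < c) (hcS : c < S) :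
    ∃ r θ : ℝ → ℝ, ContDiff ℝ 2 r ∧ ContDiff ℝ 2 θ ∧ (∀ t, 0 < r t ∧ r t < L) ∧
      (∀ t, deriv (deriv r) t = f (r t) * deriv f (r t) * deriv θ t ^ 2) ∧
      (∀ t, f (r t) ^ 2 * deriv θ t = c) ∧
      (∀ t, deriv r t ^ 2 + f (r t) ^ 2 * deriv θ t ^ 2 = 1) ∧
      0 < timT L f c ∧
      (∀ t, r (t + timT L f c) = r t) ∧ (∀ t, θ (t + timT L f c) = θ t + rotP L f c) := by
  obtain ⟨p, q, hp0, hpq, hqL, hfp, hfq, hfp', hfq', hiff⟩ := turning hf hw hc hcS
  obtain ⟨k, hkc, hk, hkpos⟩ := factor hf.smooth hc hpq hfp hfq hfp' hfq'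
    (fun x h1 h2 => (hiff x (by linarith) (by linarith)).2 ⟨h1, h2⟩)
  have hfc : Continuous f := hf.smooth.continuous
  have hfd : Differentiable ℝ f := hf.smooth.differentiable (by simp)
  have hf'c : Continuous (deriv f) := hf.smooth.continuous_deriv (by simp)
  -- the set of integration
  have hset : {r | r ∈ Ioo 0 L ∧ c < f r} = Ioo p q := by
    ext x
    simp only [mem_ofPred_eq, mem_Ioo]
    constructor
    · rintro ⟨⟨h1, h2⟩, h3⟩
      exact (hiff x h1 h2).1 h3
    · rintro ⟨h1, h2⟩
      exact ⟨⟨by linarith, by linarith⟩, (hiff x (by linarith) (by linarith)).2 ⟨h1, h2⟩⟩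
  set X : ℝ → ℝ := fun φ => (p + q) / 2 + (q - p) / 2 * sin φ with hX
  have hXI : ∀ φ, X φ ∈ Icc p q := by
    intro φ
    have h1 := Real.neg_one_le_sin φ
    have h2 := Real.sin_le_one φ
    simp only [hX]
    constructor <;> nlinarith
  have hXc : Continuous X := by fun_prop
  have hfI : ∀ x ∈ Icc p q, 0 < f x := fun x hx => hf.fpos x (by linarith [hx.1]) (by linarith [hx.2])
  have hfX : ∀ φ, 0 < f (X φ) := fun φ => hfI _ (hXI φ)
  have hkX : ∀ φ, 0 < √(k (X φ)) := fun φ => Real.sqrt_pos.2 (hkpos _ (hXI φ))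
  set V : ℝ → ℝ := fun φ => f (X φ) / √(k (X φ)) with hVdef
  have hVc : Continuous V := by
    refine (hfc.comp hXc).div (Real.continuous_sqrt.comp (hkc.comp hXc)) ?_
    intro φ
    exact (hkX φ).ne'
  have hVpos : ∀ φ, 0 < V φ := fun φ => div_pos (hfX φ) (hkX φ)
  have hVper : ∀ φ, V (φ + 2 * π) = V φ := by
    intro φ
    simp only [hVdef, hX, Real.sin_add_two_pi]
  obtain ⟨v₀, hv₀, hVv⟩ : ∃ v₀ : ℝ, 0 < v₀ ∧ ∀ φ, v₀ ≤ V φ := by
    have hcon : ContinuousOn (fun x => f x / √(k x)) (Icc p q) := by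
      refine ContinuousOn.div hfc.continuousOn (Real.continuous_sqrt.comp hkc).continuousOn ?_
      intro x hx
      exact (Real.sqrt_pos.2 (hkpos x hx)).ne'
    obtain ⟨x₀, hx₀, hmin⟩ := isCompact_Icc.exists_isMinOn (nonempty_Icc.2 hpq.le) hcon
    refine ⟨f x₀ / √(k x₀), div_pos (hfI x₀ hx₀) (Real.sqrt_pos.2 (hkpos x₀ hx₀)), ?_⟩
    intro φ
    exact hmin (hXI φ)
  obtain ⟨τ, ϕ, hτd, hτ0, hϕτ, hτϕ, hϕd, hτs, hϕs⟩ := clock hVc hv₀ hVv hVper
  set T := ∫ y in (0 : ℝ)..(2 * π), V y with hT
  have hTpos : 0 < T := by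
    have h1 : ∫ _ in (0 : ℝ)..(2 * π), v₀ ≤ ∫ y in (0 : ℝ)..(2 * π), V y :=
      intervalIntegral.integral_mono_on (by positivity) (by simp) (hVc.intervalIntegrable _ _)
        (fun y _ => hVv y)
    rw [intervalIntegral.integral_const, smul_eq_mul, sub_zero] at h1
    have : 0 < 2 * π * v₀ := by positivity
    linarith
  have hϕc : Continuous ϕ := continuous_iff_continuousAt.2 fun t => (hϕd t).continuousAt
  -- the radial function
  set r : ℝ → ℝ := fun t => X (ϕ t) with hr
  set A := (q - p) / 2 with hA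
  have hA0 : 0 < A := by rw [hA]; linarith
  set pt : ℝ → ℝ := fun t => A * cos (ϕ t) * (V (ϕ t))⁻¹ with hpt
  have hrc : Continuous r := hXc.comp hϕc
  have hptc : Continuous pt := by
    refine ((continuous_const.mul (Real.continuous_cos.comp hϕc))).mul ?_
    exact (hVc.comp hϕc).inv₀ (fun t => (hVpos _).ne')
  have hrd : ∀ t, HasDerivAt r (pt t) t := by
    intro t
    have h1 := (((Real.hasDerivAt_sin (ϕ t)).comp t (hϕd t)).const_mul A).const_add ((p + q) / 2)
    have h2 : A * (cos (ϕ t) * (V (ϕ t))⁻¹) = pt t := by simp only [hpt]; ring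
    rw [h2] at h1
    exact h1
  have hrI : ∀ t, r t ∈ Icc p q := fun t => hXI (ϕ t)
  have hfr : ∀ t, 0 < f (r t) := fun t => hfI _ (hrI t)
  have hE : ∀ t, pt t ^ 2 = 1 - c ^ 2 / f (r t) ^ 2 := by
    intro t
    have h1 : f (X (ϕ t)) ^ 2 - c ^ 2 = (A * cos (ϕ t)) ^ 2 * k (X (ϕ t)) := by
      rw [hk]
      congr 1
      simp only [hX, hA]
      have := Real.sin_sq_add_cos_sq (ϕ t)
      have h3 : cos (ϕ t) ^ 2 = 1 - sin (ϕ t) ^ 2 := by linarith
      rw [mul_pow, h3]
      ring
    have h2 : √(k (X (ϕ t))) ^ 2 = k (X (ϕ t)) := Real.sq_sqrt (hkpos _ (hXI _)).le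
    have h3 : f (r t) ≠ 0 := (hfr t).ne'
    have h4 : pt t = A * cos (ϕ t) * √(k (X (ϕ t))) / f (r t) := by
      simp only [hpt, hVdef, hr]
      rw [inv_div]
      ring
    rw [h4, div_pow, mul_pow, h2]
    have h5 : (A * cos (ϕ t)) ^ 2 * k (X (ϕ t)) = f (r t) ^ 2 - c ^ 2 := h1.symm
    rw [h5]
    field_simp
  set K : ℝ → ℝ := fun t => c ^ 2 * deriv f (r t) / f (r t) ^ 3 with hK
  have hKc : Continuous K := by
    refine (continuous_const.mul (hf'c.comp hrc)).div ((hfc.comp hrc).pow 3) ?_
    intro t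
    exact pow_ne_zero 3 (hfr t).ne'
  have hfrd : ∀ t, HasDerivAt (fun t => f (r t)) (deriv f (r t) * pt t) t := fun t =>
    (hfd (r t)).hasDerivAt.comp t (hrd t)
  have hEd : ∀ t, HasDerivAt (fun t => 1 - c ^ 2 / f (r t) ^ 2)
      (2 * c ^ 2 * deriv f (r t) * pt t / f (r t) ^ 3) t := by
    intro t
    have h0 : f (r t) ≠ 0 := (hfr t).ne'
    have h1 : HasDerivAt (fun t => 1 - c ^ 2 / f (r t) ^ 2)
        (-((0 * f (r t) ^ 2 - c ^ 2 * ((2 : ℕ) * f (r t) ^ (2 - 1) * (deriv f (r t) * pt t))) /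
          (f (r t) ^ 2) ^ 2)) t :=
      (((hasDerivAt_const t (c ^ 2)).div ((hfrd t).pow 2) (pow_ne_zero 2 h0)).const_sub 1)
    have h2 : 2 * c ^ 2 * deriv f (r t) * pt t / f (r t) ^ 3 =
        -((0 * f (r t) ^ 2 - c ^ 2 * ((2 : ℕ) * f (r t) ^ (2 - 1) * (deriv f (r t) * pt t))) /
          (f (r t) ^ 2) ^ 2) := by
      push_cast
      field_simp
      ring
    rw [h2]
    exact h1
  have hptd0 : ∀ t, pt t ≠ 0 → HasDerivAt pt (K t) t := by
    intro t ht
    have h1 := hasDerivAt_root hptc hE (hEd t) ht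
    have h2 : 2 * c ^ 2 * deriv f (r t) * pt t / f (r t) ^ 3 / (2 * pt t) = K t := by
      have h0 : f (r t) ≠ 0 := (hfr t).ne'
      simp only [hK]
      field_simp
    rw [h2] at h1
    exact h1
  have hcount : {t | pt t = 0}.Countable := by
    have h1 : {t | pt t = 0} ⊆ ϕ ⁻¹' (range fun n : ℤ => (2 * (n : ℝ) + 1) * π / 2) := by
      intro t ht
      have ht' : A * cos (ϕ t) * (V (ϕ t))⁻¹ = 0 := ht
      have h2 : cos (ϕ t) = 0 := by
        rcases mul_eq_zero.1 ht' with h | h
        · rcases mul_eq_zero.1 h with h | h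
          · exact absurd h hA0.ne'
          · exact h
        · exact absurd h (inv_ne_zero (hVpos _).ne')
      obtain ⟨n, hn⟩ := Real.cos_eq_zero_iff.1 h2
      exact ⟨n, hn.symm⟩
    refine Set.Countable.mono h1 ?_
    refine (countable_range _).preimage_of_injOn ?_
    intro x _ y _ hxy
    rw [← hτϕ x, ← hτϕ y, hxy]
  have hFTC : ∀ t, ∫ s in (0 : ℝ)..t, K s = pt t - pt 0 := by
    intro t
    refine integral_eq_of_hasDerivAt_off_countable pt K hcount hptc.continuousOn ?_
      (hKc.intervalIntegrable _ _)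
    intro x hx
    exact hptd0 x hx.2
  have hptd : ∀ t, HasDerivAt pt (K t) t := by
    intro t
    have h1 : HasDerivAt (fun t => pt 0 + ∫ s in (0 : ℝ)..t, K s) (K t) t :=
      (intervalIntegral.integral_hasDerivAt_right (hKc.intervalIntegrable _ _)
        (hKc.stronglyMeasurableAtFilter _ _) hKc.continuousAt).const_add _
    refine h1.congr_of_eventuallyEq (Filter.Eventually.of_forall fun s => ?_)
    show pt s = pt 0 + ∫ s in (0 : ℝ)..s, K s
    rw [hFTC]
    ring
  have hr2 : ContDiff ℝ 2 r := contDiff_two_of hrd hptd hKc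
  -- the angle
  set om : ℝ → ℝ := fun t => c / f (r t) ^ 2 with hom
  have homc : Continuous om := by
    refine continuous_const.div ((hfc.comp hrc).pow 2) ?_
    intro t
    exact pow_ne_zero 2 (hfr t).ne'
  set θ : ℝ → ℝ := fun t => ∫ s in (0 : ℝ)..t, om s with hθ
  have hθd : ∀ t, HasDerivAt θ (om t) t := fun t =>
    intervalIntegral.integral_hasDerivAt_right (homc.intervalIntegrable _ _)
      (homc.stronglyMeasurableAtFilter _ _) homc.continuousAt
  have homd : ∀ t, HasDerivAt om (-(2 * c * deriv f (r t) * pt t) / f (r t) ^ 3) t := by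
    intro t
    have h0 : f (r t) ≠ 0 := (hfr t).ne'
    have h1 : HasDerivAt (fun t => c / f (r t) ^ 2)
        ((0 * f (r t) ^ 2 - c * ((2 : ℕ) * f (r t) ^ (2 - 1) * (deriv f (r t) * pt t))) /
          (f (r t) ^ 2) ^ 2) t :=
      (hasDerivAt_const t c).div ((hfrd t).pow 2) (pow_ne_zero 2 h0)
    have h2 : -(2 * c * deriv f (r t) * pt t) / f (r t) ^ 3 =
        (0 * f (r t) ^ 2 - c * ((2 : ℕ) * f (r t) ^ (2 - 1) * (deriv f (r t) * pt t))) /
          (f (r t) ^ 2) ^ 2 := by
      push_cast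
      field_simp
      ring
    rw [h2]
    exact h1
  have homdc : Continuous fun t => -(2 * c * deriv f (r t) * pt t) / f (r t) ^ 3 := by
    refine (((continuous_const.mul (hf'c.comp hrc)).mul hptc).neg).div ((hfc.comp hrc).pow 3) ?_
    intro t
    exact pow_ne_zero 3 (hfr t).ne'
  have hθ2 : ContDiff ℝ 2 θ := contDiff_two_of hθd homd homdc
  have er : deriv r = pt := funext fun t => (hrd t).deriv
  have ept : deriv pt = K := funext fun t => (hptd t).deriv
  have eθ : deriv θ = om := funext fun t => (hθd t).deriv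
  -- periods
  have hτP : τ (2 * π) = T := by
    have := hτs 0
    rw [zero_add, hτ0, zero_add] at this
    exact this
  have htim : timT L f c = T := by
    unfold timT
    rw [hset]
    exact cov hpq hkc hk hkpos (G := f) (hfc.comp hXc)
  have hrper : ∀ t, r (t + T) = r t := by
    intro t
    simp only [hr, hϕs, hX, Real.sin_add_two_pi]
  have hrot : rotP L f c = ∫ s in (0 : ℝ)..T, om s := by
    have h1 : rotP L f c = ∫ φ in (0 : ℝ)..(2 * π), (c / f (X φ)) / √(k (X φ)) := by
      unfold rotP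
      rw [hset]
      rw [← cov hpq hkc hk hkpos (G := fun x => c / f x)
        (continuous_const.div (hfc.comp hXc) (fun φ => (hfX φ).ne'))]
      congr 1
      refine setIntegral_congr_fun measurableSet_Ioo ?_
      intro x _
      simp only
      rw [div_div]
    have h2 : ∫ φ in (0 : ℝ)..(2 * π), (om ∘ τ) φ * V φ = ∫ s in τ 0..τ (2 * π), om s :=
      intervalIntegral.integral_comp_mul_deriv (fun x _ => hτd x) hVc.continuousOn homc
    rw [hτ0, hτP] at h2
    rw [h1, ← h2]
    refine intervalIntegral.integral_congr ?_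
    intro φ _
    simp only [Function.comp_apply, hom, hr, hϕτ, hVdef]
    have h3 : f (X φ) ≠ 0 := (hfX φ).ne'
    field_simp
  refine ⟨r, θ, hr2, hθ2, ?_, ?_, ?_, ?_, ?_, ?_, ?_⟩
  · intro t
    have := hrI t
    exact ⟨by linarith [this.1], by linarith [this.2]⟩
  · intro t
    rw [er, ept, eθ]
    have h0 : f (r t) ≠ 0 := (hfr t).ne'
    simp only [hK, hom]
    field_simp
  · intro t
    rw [eθ]
    have h0 : f (r t) ≠ 0 := (hfr t).ne'
    simp only [hom]
    field_simp
  · intro t
    rw [er, eθ, hE]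
    have h0 : f (r t) ≠ 0 := (hfr t).ne'
    simp only [hom]
    field_simp
    ring
  · rw [htim]; exact hTpos
  · intro t
    rw [htim]; exact hrper t
  · intro t
    rw [htim, hrot]
    have homper : Function.Periodic om T := by
      intro s
      simp only [hom, hrper]
    have h1 : θ (t + T) = θ t + ∫ s in t..(t + T), om s := by
      simp only [hθ]
      rw [intervalIntegral.integral_add_adjacent_intervals (homc.intervalIntegrable _ _)
        (homc.intervalIntegrable _ _)]
    rw [h1]
    congr 1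
    have := homper.intervalIntegral_add_eq t 0
    rw [zero_add] at this
    exact this

end Pool.Agent.H206R2.Rot.TF
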