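import Pool.Agent.H206R2.Rot.Defs

open Real Set MeasureTheory
open scoped ContDiff

namespace Pool.Agent.H206R2.Rot.TG

variable {n : ℕ}

/-- two orthonormal vectors -/
lemma exists_orthonormal_pair (hn : 2 ≤ n) :
    ∃ e₁ e₂ : EuclideanSpace ℝ (Fin n), ‖e₁‖ = 1 ∧ ‖e₂‖ = 1 ∧ inner ℝ e₁ e₂ = 0 := by
  refine ⟨EuclideanSpace.single ⟨0, by omega⟩ 1, EuclideanSpace.single ⟨1, by omega⟩ 1, ?_, ?_, ?_⟩
  · simp
  · simp
  · simp [EuclideanSpace.inner_single_left]

lemma norm_sq_comb {e₁ e₂ : EuclideanSpace ℝ (Fin n)} (h1 : ‖e₁‖ = 1) (h2 : ‖e₂‖ = 1)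
    (h12 : inner ℝ e₁ e₂ = 0) (a b : ℝ) : ‖a • e₁ + b • e₂‖ ^ 2 = a ^ 2 + b ^ 2 := by
  rw [norm_add_sq_real, norm_smul, norm_smul, inner_smul_left, inner_smul_right, h12, h1, h2]
  simp [sq_abs]

/-- T9. -/
theorem geodesic_of_planar {L : ℝ} {f : ℝ → ℝ} (hf : IsProfile L f) {n : ℕ} (hn : 2 ≤ n)
    {r θ : ℝ → ℝ} {c T : ℝ} (hr : ContDiff ℝ 2 r) (hθ : ContDiff ℝ 2 θ)
    (hpos : ∀ t, 0 < r t ∧ r t < L)
    (h1 : ∀ t, deriv (deriv r) t = f (r t) * deriv f (r t) * deriv θ t ^ 2)
    (h2 : ∀ t, f (r t) ^ 2 * deriv θ t = c)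
    (h3 : ∀ t, deriv r t ^ 2 + f (r t) ^ 2 * deriv θ t ^ 2 = 1)
    (hrT : ∀ t, r (t + T) = r t) (hθT : ∀ t, θ (t + T) = θ t + 2 * π) :
    ∃ γ : ℝ → EuclideanSpace ℝ (Fin n) × ℝ, IsGeodesic L f 1 γ ∧ ∀ t, γ (t + T) = γ t := by
  obtain ⟨e₁, e₂, he1, he2, he12⟩ := exists_orthonormal_pair hn
  set u : ℝ → EuclideanSpace ℝ (Fin n) := fun t => Real.cos (θ t) • e₁ + Real.sin (θ t) • e₂
    with hu
  have hθ1 : ∀ t, HasDerivAt θ (deriv θ t) t := fun t =>
    (hθ.differentiable (by norm_num)).differentiableAt.hasDerivAt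
  have hθ' : ContDiff ℝ 1 (deriv θ) := by
    have h2' : ContDiff ℝ (1 + 1) θ := by
      have : (1 + 1 : WithTop ℕ∞) = 2 := by norm_num
      rw [this]; exact hθ
    exact (contDiff_succ_iff_deriv.1 h2').2.2
  have hθ2 : ∀ t, HasDerivAt (deriv θ) (deriv (deriv θ) t) t := fun t =>
    (hθ'.differentiable (by norm_num)).differentiableAt.hasDerivAt
  have hr1 : ∀ t, HasDerivAt r (deriv r t) t := fun t =>
    (hr.differentiable (by norm_num)).differentiableAt.hasDerivAt
  have hf1 : ∀ x, HasDerivAt f (deriv f x) x := fun x =>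
    (hf.smooth.differentiable (by norm_num)).differentiableAt.hasDerivAt
  have hu1 : ∀ t, HasDerivAt u (deriv θ t • (-Real.sin (θ t) • e₁ + Real.cos (θ t) • e₂)) t := by
    intro t
    have ha := ((hθ1 t).cos).smul_const e₁
    have hb := ((hθ1 t).sin).smul_const e₂
    refine (ha.add hb).congr_deriv ?_
    module
  have hdu : deriv u = fun t => deriv θ t • (-Real.sin (θ t) • e₁ + Real.cos (θ t) • e₂) :=
    funext fun t => (hu1 t).deriv
  have hu2 : ∀ t, HasDerivAt (deriv u)
      (deriv (deriv θ) t • (-Real.sin (θ t) • e₁ + Real.cos (θ t) • e₂)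
        - (deriv θ t) ^ 2 • u t) t := by
    intro t
    rw [hdu]
    have ha := (((hθ1 t).sin).neg).smul_const e₁
    have hb := ((hθ1 t).cos).smul_const e₂
    have hc := (hθ2 t).smul (ha.add hb)
    refine hc.congr_deriv ?_
    have hval : ((fun y => (-fun x => Real.sin (θ x)) y • e₁) + fun y => Real.cos (θ y) • e₂) t
        = -Real.sin (θ t) • e₁ + Real.cos (θ t) • e₂ := rfl
    rw [hval]
    simp only [hu]
    module
  have hnu : ∀ t, ‖u t‖ = 1 := by
    intro t
    have : ‖u t‖ ^ 2 = 1 := by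
      rw [hu]; simp only []
      rw [norm_sq_comb he1 he2 he12]; exact Real.cos_sq_add_sin_sq _
    have h0 := norm_nonneg (u t)
    nlinarith
  have hndu : ∀ t, ‖deriv u t‖ ^ 2 = deriv θ t ^ 2 := by
    intro t
    rw [hdu]; simp only []
    rw [norm_smul, mul_pow, norm_sq_comb he1 he2 he12]
    rw [Real.norm_eq_abs, sq_abs]
    have := Real.sin_sq_add_cos_sq (θ t)
    nlinarith
  refine ⟨fun t => polar L (r t) (u t), ⟨r, u, hr, ?_, hnu, fun t => rfl, ?_, ?_, ?_⟩, ?_⟩
  · rw [hu]
    have hcos : ContDiff ℝ 2 (fun t => Real.cos (θ t)) := Real.contDiff_cos.comp hθ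
    have hsin : ContDiff ℝ 2 (fun t => Real.sin (θ t)) := Real.contDiff_sin.comp hθ
    exact (hcos.smul contDiff_const).add (hsin.smul contDiff_const)
  · intro t; rw [hndu, h1]
  · intro t
    rw [(hu2 t).deriv, hndu]
    have hfp : 0 < f (r t) := hf.fpos _ (hpos t).1 (hpos t).2
    -- differentiate the Clairaut relation
    have hcl : HasDerivAt (fun t => f (r t) ^ 2 * deriv θ t)
        (2 * f (r t) * (deriv f (r t) * deriv r t) * deriv θ t
          + f (r t) ^ 2 * deriv (deriv θ) t) t := by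
      have ha : HasDerivAt (fun t => f (r t)) (deriv f (r t) * deriv r t) t :=
        (hf1 (r t)).comp t (hr1 t)
      have hb := (ha.pow 2).mul (hθ2 t)
      refine hb.congr_deriv ?_
      norm_num
    have hconst : (fun t => f (r t) ^ 2 * deriv θ t) = fun _ => c := funext h2
    rw [hconst] at hcl
    have h0 := hcl.unique (hasDerivAt_const t c)
    have h0' : 2 * (deriv f (r t) * deriv r t) * deriv θ t + f (r t) * deriv (deriv θ) t = 0 := by
      have : f (r t) * (2 * (deriv f (r t) * deriv r t) * deriv θ t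
          + f (r t) * deriv (deriv θ) t) = 0 := by rw [← h0]; ring
      rcases mul_eq_zero.1 this with h | h
      · exact absurd h hfp.ne'
      · exact h
    have hdut : deriv u t = deriv θ t • (-Real.sin (θ t) • e₁ + Real.cos (θ t) • e₂) :=
      (hu1 t).deriv
    rw [hdut]
    set w := (-Real.sin (θ t) • e₁ + Real.cos (θ t) • e₂) with hw
    have : f (r t) • (deriv (deriv θ) t • w - (deriv θ t) ^ 2 • u t)
        + (2 * deriv f (r t) * deriv r t) • (deriv θ t • w)
        + (f (r t) * deriv θ t ^ 2) • u t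
        = (2 * (deriv f (r t) * deriv r t) * deriv θ t + f (r t) * deriv (deriv θ) t) • w := by
      module
    rw [this, h0', zero_smul]
  · intro t; rw [hndu, h3]; norm_num
  · intro t
    simp only [hrT, hu, hθT, Real.cos_add_two_pi, Real.sin_add_two_pi]

/-- T10. -/
theorem meridian {L : ℝ} {f : ℝ → ℝ} (hf : IsProfile L f) {n : ℕ} (hn : 2 ≤ n) :
    ∃ γ : ℝ → EuclideanSpace ℝ (Fin n) × ℝ, IsGeodesic L f 1 γ ∧ ∀ t, γ (t + 2 * L) = γ t := by
  obtain ⟨e₁, e₂, he1, he2, he12⟩ := exists_orthonormal_pair hn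
  refine ⟨fun t => polar L t e₁, ⟨fun t => t, fun _ => e₁, contDiff_id, contDiff_const,
    fun _ => he1, fun _ => rfl, ?_, ?_, ?_⟩, ?_⟩
  · intro t; simp
  · intro t; simp
  · intro t; simp
  · intro t
    have hL : L ≠ 0 := hf.pos.ne'
    have : π * (t + 2 * L) / L = π * t / L + 2 * π := by field_simp
    simp only [polar, this, Real.cos_add_two_pi, Real.sin_add_two_pi]

/-- T11. -/
theorem parallel {L : ℝ} {f : ℝ → ℝ} (hf : IsProfile L f) {n : ℕ} (hn : 2 ≤ n) {r₀ : ℝ}
    (h0 : 0 < r₀) (hL : r₀ < L) (hd : deriv f r₀ = 0) :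
    ∃ γ : ℝ → EuclideanSpace ℝ (Fin n) × ℝ, IsGeodesic L f 1 γ ∧
      ∀ t, γ (t + 2 * π * f r₀) = γ t := by
  have hfp : 0 < f r₀ := hf.fpos _ h0 hL
  have hθd : ∀ t, HasDerivAt (fun t : ℝ => t / f r₀) (1 / f r₀) t := fun t =>
    (hasDerivAt_id t).div_const _
  have hdθ : deriv (fun t : ℝ => t / f r₀) = fun _ => 1 / f r₀ := funext fun t => (hθd t).deriv
  refine geodesic_of_planar hf hn (r := fun _ => r₀) (θ := fun t => t / f r₀) (c := f r₀)
    contDiff_const (contDiff_id.div_const _) (fun _ => ⟨h0, hL⟩) ?_ ?_ ?_ (fun _ => rfl) ?_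
  · intro t; simp [hd]
  · intro t; rw [hdθ]; field_simp
  · intro t; rw [hdθ]; simp; field_simp
  · intro t; field_simp

/-- harmonic oscillator with period `T` -/
lemma osc_period {v T : ℝ} (hv : 0 < v) (hT : 0 < T) {g g' : ℝ → ℝ}
    (h1 : ∀ t, HasDerivAt g (g' t) t) (h2 : ∀ t, HasDerivAt g' (-v ^ 2 * g t) t)
    (hper : ∀ t, g (t + T) = g t) (h0 : g 0 ≠ 0) : 2 * π ≤ v * T := by
  have hper' : g' T = g' 0 := by
    have ha : HasDerivAt (fun t => g (t + T)) (g' (0 + T)) 0 := (h1 (0 + T)).comp_add_const 0 T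
    have hb : HasDerivAt (fun t => g (t + T)) (g' 0) 0 := by
      have : (fun t => g (t + T)) = g := funext hper
      rw [this]; exact h1 0
    simpa using ha.unique hb
  have hvt : ∀ t, HasDerivAt (fun t : ℝ => v * t) v t := fun t => by
    simpa using (hasDerivAt_id t).const_mul v
  have hp : ∀ t, HasDerivAt (fun t => g t * Real.cos (v * t) - g' t / v * Real.sin (v * t)) 0 t := by
    intro t
    refine (((h1 t).mul (hvt t).cos).sub (((h2 t).div_const v).mul (hvt t).sin)).congr_deriv ?_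
    field_simp
    ring
  have hq : ∀ t, HasDerivAt (fun t => g t * Real.sin (v * t) + g' t / v * Real.cos (v * t)) 0 t := by
    intro t
    refine (((h1 t).mul (hvt t).sin).add (((h2 t).div_const v).mul (hvt t).cos)).congr_deriv ?_
    field_simp
    ring
  have hpc := is_const_of_deriv_eq_zero (fun t => (hp t).differentiableAt) (fun t => (hp t).deriv)
    T 0
  have hqc := is_const_of_deriv_eq_zero (fun t => (hq t).differentiableAt) (fun t => (hq t).deriv)
    T 0
  simp only [mul_zero, Real.cos_zero, Real.sin_zero, mul_one, sub_zero, zero_add] at hpc hqc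
  have hgT : g T = g 0 := by simpa using hper 0
  rw [hgT, hper'] at hpc hqc
  set a := g 0
  set b := g' 0 / v
  have hkey : (a ^ 2 + b ^ 2) * (1 - Real.cos (v * T)) = 0 := by
    linear_combination (-a) * hpc - b * hqc
  have hab : a ^ 2 + b ^ 2 ≠ 0 := by positivity
  have hcos : Real.cos (v * T) = 1 := by
    rcases mul_eq_zero.1 hkey with h | h
    · exact absurd h hab
    · linarith
  obtain ⟨k, hk⟩ := (Real.cos_eq_one_iff _).1 hcos
  have hvT : 0 < v * T := mul_pos hv hT
  have hk1 : 0 < (k : ℝ) := by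
    by_contra hneg
    push Not at hneg
    have : (k : ℝ) * (2 * π) ≤ 0 := mul_nonpos_of_nonpos_of_nonneg hneg (by positivity)
    linarith
  have hk2 : (1 : ℝ) ≤ k := by
    have : 0 < k := by exact_mod_cast hk1
    exact_mod_cast this
  rw [← hk]
  nlinarith [Real.pi_pos]

/-- T13. -/
theorem round_length {n : ℕ} {v T : ℝ} (hv : 0 < v) (hT : 0 < T)
    {γ : ℝ → EuclideanSpace ℝ (Fin n) × ℝ} (hγ : IsGeodesic π Real.sin v γ)
    (hper : ∀ t, γ (t + T) = γ t) : 2 * π ≤ v * T := by
  obtain ⟨r, u, hr, hu, hnu, hγe, h1, h2, h3⟩ := hγ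
  have hpi : (π : ℝ) ≠ 0 := Real.pi_ne_zero
  have hr1 : ∀ t, HasDerivAt r (deriv r t) t := fun t =>
    (hr.differentiable (by norm_num)).differentiableAt.hasDerivAt
  have hr' : ContDiff ℝ 1 (deriv r) := by
    have h2' : ContDiff ℝ (1 + 1) r := by
      have : (1 + 1 : WithTop ℕ∞) = 2 := by norm_num
      rw [this]; exact hr
    exact (contDiff_succ_iff_deriv.1 h2').2.2
  have hr2 : ∀ t, HasDerivAt (deriv r) (deriv (deriv r) t) t := fun t =>
    (hr'.differentiable (by norm_num)).differentiableAt.hasDerivAt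
  have hcosper : ∀ t, Real.cos (r (t + T)) = Real.cos (r t) := by
    intro t
    have := congrArg Prod.snd (hper t)
    rw [hγe, hγe] at this
    simpa [polar, mul_div_cancel_left₀ _ hpi] using this
  have hyper : ∀ t, Real.sin (r (t + T)) • u (t + T) = Real.sin (r t) • u t := by
    intro t
    have := congrArg Prod.fst (hper t)
    rw [hγe, hγe] at this
    simpa [polar, mul_div_cancel_left₀ _ hpi] using this
  have hds : deriv Real.sin = Real.cos := Real.deriv_sin
  have hu1 : ∀ t, HasDerivAt u (deriv u t) t := fun t =>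
    (hu.differentiable (by norm_num)).differentiableAt.hasDerivAt
  have hu' : ContDiff ℝ 1 (deriv u) := by
    have h2' : ContDiff ℝ (1 + 1) u := by
      have : (1 + 1 : WithTop ℕ∞) = 2 := by norm_num
      rw [this]; exact hu
    exact (contDiff_succ_iff_deriv.1 h2').2.2
  have hu2 : ∀ t, HasDerivAt (deriv u) (deriv (deriv u) t) t := fun t =>
    (hu'.differentiable (by norm_num)).differentiableAt.hasDerivAt
  by_cases hz : Real.cos (r 0) = 0
  · -- use `⟪y 0, y t⟫`
    set x : EuclideanSpace ℝ (Fin n) := Real.sin (r 0) • u 0 with hx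
    have hy1 : ∀ t, HasDerivAt (fun t => Real.sin (r t) • u t)
        (Real.sin (r t) • deriv u t + (Real.cos (r t) * deriv r t) • u t) t := fun t =>
      ((hr1 t).sin).smul (hu1 t)
    have hy2 : ∀ t, HasDerivAt
        (fun t => Real.sin (r t) • deriv u t + (Real.cos (r t) * deriv r t) • u t)
        (-(v ^ 2) • (Real.sin (r t) • u t)) t := by
      intro t
      have ha := ((hr1 t).sin).smul (hu2 t)
      have hb := (((hr1 t).cos).mul (hr2 t)).smul (hu1 t)
      refine (ha.add hb).congr_deriv ?_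
      have e2 := h2 t
      have e1 := h1 t
      have e3 := h3 t
      rw [hds] at e1 e2
      have e2' : Real.sin (r t) • deriv (deriv u) t
          = -((2 * Real.cos (r t) * deriv r t) • deriv u t
            + (Real.sin (r t) * ‖deriv u t‖ ^ 2) • u t) := by
        rw [eq_neg_iff_add_eq_zero, ← e2]; abel
      rw [e2', e1]
      have hs := Real.sin_sq_add_cos_sq (r t)
      have hc : Real.cos (r t) ^ 2 = 1 - Real.sin (r t) ^ 2 := by linarith
      have hcoef : -(Real.sin (r t) * ‖deriv u t‖ ^ 2)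
          + (-Real.sin (r t) * deriv r t * deriv r t
            + Real.cos (r t) * (Real.sin (r t) * Real.cos (r t) * ‖deriv u t‖ ^ 2))
          = -(v ^ 2) * Real.sin (r t) := by
        rw [← e3]
        have : Real.cos (r t) * (Real.sin (r t) * Real.cos (r t) * ‖deriv u t‖ ^ 2)
            = Real.cos (r t) ^ 2 * (Real.sin (r t) * ‖deriv u t‖ ^ 2) := by ring
        rw [this, hc]; ring
      have hval : ((fun x => Real.cos (r x)) * deriv r) t = Real.cos (r t) * deriv r t := rfl
      rw [smul_smul, ← hcoef, hval]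
      module
    have hg1 : ∀ t, HasDerivAt (fun t => inner ℝ x (Real.sin (r t) • u t))
        (inner ℝ x (Real.sin (r t) • deriv u t + (Real.cos (r t) * deriv r t) • u t)) t :=
      fun t => (innerSL ℝ x).hasFDerivAt.comp_hasDerivAt t (hy1 t)
    have hg2 : ∀ t, HasDerivAt (fun t => inner ℝ x
        (Real.sin (r t) • deriv u t + (Real.cos (r t) * deriv r t) • u t))
        (-v ^ 2 * inner ℝ x (Real.sin (r t) • u t)) t := by
      intro t
      refine ((innerSL ℝ x).hasFDerivAt.comp_hasDerivAt t (hy2 t)).congr_deriv ?_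
      simp [inner_smul_right]
    refine osc_period hv hT hg1 hg2 (fun t => by rw [hyper]) ?_
    have hs : Real.sin (r 0) ^ 2 = 1 := by
      have := Real.sin_sq_add_cos_sq (r 0); rw [hz] at this; linarith
    have hxx : inner ℝ x x = (1 : ℝ) := by
      rw [real_inner_self_eq_norm_sq, hx, norm_smul, hnu, mul_one, Real.norm_eq_abs, sq_abs, hs]
    show inner ℝ x x ≠ (0 : ℝ)
    rw [hxx]; norm_num
  · -- use `cos (r t)`
    have hg1 : ∀ t, HasDerivAt (fun t => Real.cos (r t)) (-Real.sin (r t) * deriv r t) t :=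
      fun t => (hr1 t).cos
    have hg2 : ∀ t, HasDerivAt (fun t => -Real.sin (r t) * deriv r t)
        (-v ^ 2 * Real.cos (r t)) t := by
      intro t
      refine (((hr1 t).sin.neg).mul (hr2 t)).congr_deriv ?_
      have e1 := h1 t
      have e3 := h3 t
      rw [hds] at e1
      rw [e1]
      simp only [Pi.neg_apply]
      linear_combination (-Real.cos (r t)) * e3
    exact osc_period hv hT hg1 hg2 hcosper hz

/-- T12. -/
theorem round_profile : IsProfile π Real.sin where
  pos := Real.pi_pos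
  smooth := Real.contDiff_sin
  odd_zero := Real.sin_neg
  odd_L := fun r => by rw [Real.sin_pi_sub, add_comm, Real.sin_add_pi]
  fpos := fun r h1 h2 => Real.sin_pos_of_pos_of_lt_pi h1 h2
  deriv_zero := by simp
  deriv_L := by simp

end Pool.Agent.H206R2.Rot.TG
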