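import Pool.Agent.H206R2.Rot.TA
import Pool.Agent.H206R2.Rot.TB
import Pool.Agent.H206R2.Rot.TC
import Pool.Agent.H206R2.Rot.TD
import Pool.Agent.H206R2.Rot.TE
import Pool.Agent.H206R2.Rot.TF
import Pool.Agent.H206R2.Rot.TG

open Real Set MeasureTheory
open scoped ContDiff Topology

namespace Pool.Agent.H206R2.Rot.Main

lemma hasDerivAt_actA {L : ℝ} {f : ℝ → ℝ} (hf : IsProfile L f) {S a b R₀ : ℝ}
    (hw : Wall L f S a b) (hR : 0 < R₀) (hRS : R₀ < S) {c : ℝ} (hc : 0 < c) (hcR : c < R₀) :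
    HasDerivAt (actA L f) (-rotP L f c) c := by
  have hcont : ContinuousOn (rotP L f) (Ioc 0 R₀) := TC.rotP_continuousOn hf hw hR hRS (TB.coarea hf hw)
  have hint : IntervalIntegrable (rotP L f) volume c R₀ := by
    refine ContinuousOn.intervalIntegrable (hcont.mono ?_)
    rw [uIcc_of_le hcR.le]
    exact fun x hx => ⟨hc.trans_le hx.1, hx.2⟩
  have hcont' : ContinuousOn (rotP L f) (Ioo 0 R₀) := hcont.mono Ioo_subset_Ioc_self
  have hmem : Ioo 0 R₀ ∈ 𝓝 c := isOpen_Ioo.mem_nhds ⟨hc, hcR⟩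
  have hca : ContinuousAt (rotP L f) c := hcont'.continuousAt hmem
  have hmeas : StronglyMeasurableAtFilter (rotP L f) (𝓝 c) volume :=
    hcont'.stronglyMeasurableAtFilter isOpen_Ioo c ⟨hc, hcR⟩
  have h1 := intervalIntegral.integral_hasDerivAt_left hint hmeas hca
  have h2 : HasDerivAt (fun x => (∫ s in x..R₀, rotP L f s) + actA L f R₀) (-rotP L f c) c :=
    h1.add_const _
  refine h2.congr_of_eventuallyEq ?_
  filter_upwards [hmem] with x hx
  have := TD.actA_sub hf hw hR hRS hx.1 hx.2.le le_rfl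
  linarith

theorem short_geodesic {L : ℝ} {f : ℝ → ℝ} (hf : IsProfile L f) {n : ℕ} (hn : 2 ≤ n) :
    ∃ (γ : ℝ → EuclideanSpace ℝ (Fin n) × ℝ) (T : ℝ), 0 < T ∧ IsGeodesic L f 1 γ ∧
      (∀ t, γ (t + T) = γ t) ∧
      T ^ n * (∫ t in (0 : ℝ)..π, Real.sin t ^ (n - 1))
        ≤ (2 * π) ^ n * ∫ r in (0 : ℝ)..L, f r ^ (n - 1) := by
  have hfc : Continuous f := hf.smooth.continuous
  have hLpos := hf.pos
  have hpi := Real.pi_pos
  set W : ℝ := ∫ t in (0 : ℝ)..π, Real.sin t ^ (n - 1) with hWdef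
  set V : ℝ := ∫ r in (0 : ℝ)..L, f r ^ (n - 1) with hVdef
  have hW : 0 < W := by
    refine intervalIntegral.intervalIntegral_pos_of_pos_on
      ((Real.continuous_sin.pow _).intervalIntegrable _ _) (fun x hx => ?_) hpi
    exact pow_pos (Real.sin_pos_of_pos_of_lt_pi hx.1 hx.2) _
  have hV : 0 < V := by
    refine intervalIntegral.intervalIntegral_pos_of_pos_on
      ((hfc.pow _).intervalIntegrable _ _) (fun x hx => ?_) hLpos
    exact pow_pos (hf.fpos x hx.1 hx.2) _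
  obtain ⟨R₀, hR, hRn⟩ : ∃ R₀ : ℝ, 0 < R₀ ∧ R₀ ^ n * W = V := by
    refine ⟨(V / W) ^ ((n : ℝ)⁻¹), Real.rpow_pos_of_pos (div_pos hV hW) _, ?_⟩
    rw [Real.rpow_inv_natCast_pow (div_pos hV hW).le (by omega)]
    field_simp
  -- it is enough to find a periodic geodesic of length at most `2 π R₀`
  suffices h : ∃ (γ : ℝ → EuclideanSpace ℝ (Fin n) × ℝ) (T : ℝ), 0 < T ∧ IsGeodesic L f 1 γ ∧
      (∀ t, γ (t + T) = γ t) ∧ T ≤ 2 * π * R₀ by
    obtain ⟨γ, T, hT, hγ, hper, hle⟩ := h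
    refine ⟨γ, T, hT, hγ, hper, ?_⟩
    have h1 : T ^ n ≤ (2 * π * R₀) ^ n := pow_le_pow_left₀ hT.le hle n
    calc T ^ n * W ≤ (2 * π * R₀) ^ n * W := mul_le_mul_of_nonneg_right h1 hW.le
      _ = (2 * π) ^ n * (R₀ ^ n * W) := by rw [mul_pow]; ring
      _ = (2 * π) ^ n * V := by rw [hRn]
  rcases le_or_gt L (π * R₀) with hcase | hcase
  · obtain ⟨γ, h1, h2⟩ := TG.meridian hf hn
    exact ⟨γ, 2 * L, by linarith, h1, h2, by linarith⟩
  by_cases hcrit : ∀ r, 0 < r → r < L → deriv f r = 0 → R₀ < f r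
  swap
  · push Not at hcrit
    obtain ⟨r, h0, hrL, hd, hle⟩ := hcrit
    obtain ⟨γ, h1, h2⟩ := TG.parallel hf hn h0 hrL hd
    have hfr := hf.fpos r h0 hrL
    refine ⟨γ, 2 * π * f r, by positivity, h1, h2, ?_⟩
    exact mul_le_mul_of_nonneg_left hle (by positivity)
  obtain ⟨S, a, b, hRS, hw⟩ := TA.exists_wall hf hR hcrit
  obtain ⟨hAcont, hA0, hAnn⟩ := TE.actA_continuousOn hf
  set D : ℝ → ℝ := fun c => actA L f c - 2 * π * (R₀ - c) with hD
  have hDcont : Continuous D := by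
    exact hAcont.sub (continuous_const.mul (continuous_const.sub continuous_id))
  obtain ⟨c, hcmem, hcmin⟩ := (isCompact_Icc (a := (0 : ℝ)) (b := R₀)).exists_isMinOn
    ⟨0, by constructor <;> linarith⟩ hDcont.continuousOn
  have hDneg : D c < 0 := by
    by_contra hneg
    push Not at hneg
    have hA : ∀ x, 0 ≤ x → x ≤ R₀ → 2 * π * (R₀ - x) ≤ actA L f x := by
      intro x hx1 hx2
      have h1 : D c ≤ D x := hcmin ⟨hx1, hx2⟩
      have h2 : D x = actA L f x - 2 * π * (R₀ - x) := rfl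
      linarith
    have hbig : ∃ r, 0 < r ∧ r < L ∧ R₀ < f r :=
      ⟨a, hw.apos, hw.ab.trans_lt hw.bL, by rw [hw.fa]; exact hRS⟩
    have := TE.volume_bound hf hn hR hA hbig
    rw [← hWdef, ← hVdef, hRn] at this
    exact lt_irrefl _ this
  have hc0 : 0 < c := by
    rcases hcmem.1.lt_or_eq with h | h
    · exact h
    · exfalso
      rw [← h] at hDneg
      simp only [hD, hA0, sub_zero] at hDneg
      linarith
  have hcR : c < R₀ := by
    rcases hcmem.2.lt_or_eq with h | h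
    · exact h
    · exfalso
      rw [h] at hDneg
      simp only [hD, sub_self, mul_zero, sub_zero] at hDneg
      linarith [hAnn R₀]
  have hder : HasDerivAt D (-rotP L f c + 2 * π) c := by
    have h1 := hasDerivAt_actA hf hw hR hRS hc0 hcR
    have h2 : HasDerivAt (fun c => 2 * π * (R₀ - c)) (2 * π * (-1)) c :=
      ((hasDerivAt_id c).const_sub R₀).const_mul (2 * π)
    refine (h1.sub h2).congr_deriv ?_
    ring
  have hmin : IsLocalMin D c := by
    filter_upwards [isOpen_Ioo.mem_nhds (⟨hc0, hcR⟩ : c ∈ Ioo 0 R₀)] with x hx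
    exact hcmin ⟨hx.1.le, hx.2.le⟩
  have hrot : rotP L f c = 2 * π := by
    have := hmin.hasDerivAt_eq_zero hder
    linarith
  have hcS : c < S := hcR.trans hRS
  have hT := TD.timT_eq hf hw (TB.coarea hf hw) hc0 hcS
  obtain ⟨r, θ, hr, hθ, hpos, h1, h2, h3, hTpos, hrT, hθT⟩ := TF.exists_planar hf hw hc0 hcS
  obtain ⟨γ, hγ, hper⟩ := TG.geodesic_of_planar hf hn hr hθ hpos h1 h2 h3 hrT
    (fun t => by rw [hθT, hrot])
  refine ⟨γ, timT L f c, hTpos, hγ, hper, ?_⟩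
  rw [hT, hrot]
  have h2 : D c = actA L f c - 2 * π * (R₀ - c) := rfl
  nlinarith

end Pool.Agent.H206R2.Rot.Main
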