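import Pool.Agent.H206R2.Rot.Defs

open Real Set MeasureTheory
open scoped ContDiff

namespace Pool.Agent.H206R2.Rot.Stubs

/-- T1. -/
theorem exists_wall {L : ℝ} {f : ℝ → ℝ} (hf : IsProfile L f) {R₀ : ℝ} (hR : 0 < R₀)
    (hcrit : ∀ r, 0 < r → r < L → deriv f r = 0 → R₀ < f r) :
    ∃ S a b, R₀ < S ∧ Wall L f S a b := by
  sorry

/-- T2. -/
theorem coarea {L : ℝ} {f : ℝ → ℝ} (hf : IsProfile L f) {S a b : ℝ} (hw : Wall L f S a b) :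
    ∃ ν : ℝ → ℝ, Continuous ν ∧ (∀ s, 0 ≤ ν s) ∧
      ∀ h : ℝ → ℝ, IntegrableOn h (Ioo 0 S) →
        IntegrableOn (fun r => h (f r)) (Ioo 0 a ∪ Ioo b L) ∧
        (∫ r in Ioo 0 a ∪ Ioo b L, h (f r)) = ∫ s in Ioo 0 S, h s * ν s := by
  sorry

/-- T3. -/
theorem rotP_continuousOn {L : ℝ} {f : ℝ → ℝ} (hf : IsProfile L f) {S a b R₀ : ℝ}
    (hw : Wall L f S a b) (hR : 0 < R₀) (hRS : R₀ < S) :
    ContinuousOn (rotP L f) (Ioc 0 R₀) := by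
  sorry

/-- T4. -/
theorem actA_sub {L : ℝ} {f : ℝ → ℝ} (hf : IsProfile L f) {S a b R₀ : ℝ}
    (hw : Wall L f S a b) (hR : 0 < R₀) (hRS : R₀ < S) {c d : ℝ} (hc : 0 < c) (hcd : c ≤ d)
    (hd : d ≤ R₀) :
    actA L f c - actA L f d = ∫ s in c..d, rotP L f s := by
  sorry

/-- T5. -/
theorem actA_continuousOn {L : ℝ} {f : ℝ → ℝ} (hf : IsProfile L f) :
    Continuous (actA L f) ∧ actA L f 0 = 2 * L ∧ ∀ c, 0 ≤ actA L f c := by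
  sorry

/-- T6. -/
theorem volume_bound {L : ℝ} {f : ℝ → ℝ} (hf : IsProfile L f) {n : ℕ} (hn : 2 ≤ n) {R₀ : ℝ}
    (hR : 0 < R₀) (hA : ∀ c, 0 ≤ c → c ≤ R₀ → 2 * π * (R₀ - c) ≤ actA L f c)
    (hbig : ∃ r, 0 < r ∧ r < L ∧ R₀ < f r) :
    R₀ ^ n * (∫ t in (0 : ℝ)..π, Real.sin t ^ (n - 1)) < ∫ r in (0 : ℝ)..L, f r ^ (n - 1) := by
  sorry

/-- T7. -/
theorem timT_eq {L : ℝ} {f : ℝ → ℝ} (hf : IsProfile L f) {S a b : ℝ}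
    (hw : Wall L f S a b) {c : ℝ} (hc : 0 < c) (hcS : c < S) :
    timT L f c = actA L f c + c * rotP L f c := by
  sorry

/-- T8. -/
theorem exists_planar {L : ℝ} {f : ℝ → ℝ} (hf : IsProfile L f) {S a b : ℝ}
    (hw : Wall L f S a b) {c : ℝ} (hc : 0 < c) (hcS : c < S) :
    ∃ r θ : ℝ → ℝ, ContDiff ℝ 2 r ∧ ContDiff ℝ 2 θ ∧ (∀ t, 0 < r t ∧ r t < L) ∧
      (∀ t, deriv (deriv r) t = f (r t) * deriv f (r t) * deriv θ t ^ 2) ∧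
      (∀ t, f (r t) ^ 2 * deriv θ t = c) ∧
      (∀ t, deriv r t ^ 2 + f (r t) ^ 2 * deriv θ t ^ 2 = 1) ∧
      0 < timT L f c ∧
      (∀ t, r (t + timT L f c) = r t) ∧ (∀ t, θ (t + timT L f c) = θ t + rotP L f c) := by
  sorry

/-- T9. -/
theorem geodesic_of_planar {L : ℝ} {f : ℝ → ℝ} (hf : IsProfile L f) {n : ℕ} (hn : 2 ≤ n)
    {r θ : ℝ → ℝ} {c T : ℝ} (hr : ContDiff ℝ 2 r) (hθ : ContDiff ℝ 2 θ)
    (hpos : ∀ t, 0 < r t ∧ r t < L)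
    (h1 : ∀ t, deriv (deriv r) t = f (r t) * deriv f (r t) * deriv θ t ^ 2)
    (h2 : ∀ t, f (r t) ^ 2 * deriv θ t = c)
    (h3 : ∀ t, deriv r t ^ 2 + f (r t) ^ 2 * deriv θ t ^ 2 = 1)
    (hrT : ∀ t, r (t + T) = r t) (hθT : ∀ t, θ (t + T) = θ t + 2 * π) :
    ∃ γ : ℝ → EuclideanSpace ℝ (Fin n) × ℝ, IsGeodesic L f 1 γ ∧ ∀ t, γ (t + T) = γ t := by
  sorry

/-- T10. -/
theorem meridian {L : ℝ} {f : ℝ → ℝ} (hf : IsProfile L f) {n : ℕ} (hn : 2 ≤ n) :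
    ∃ γ : ℝ → EuclideanSpace ℝ (Fin n) × ℝ, IsGeodesic L f 1 γ ∧ ∀ t, γ (t + 2 * L) = γ t := by
  sorry

/-- T11. -/
theorem parallel {L : ℝ} {f : ℝ → ℝ} (hf : IsProfile L f) {n : ℕ} (hn : 2 ≤ n) {r₀ : ℝ}
    (h0 : 0 < r₀) (hL : r₀ < L) (hd : deriv f r₀ = 0) :
    ∃ γ : ℝ → EuclideanSpace ℝ (Fin n) × ℝ, IsGeodesic L f 1 γ ∧
      ∀ t, γ (t + 2 * π * f r₀) = γ t := by
  sorry

/-- T12. -/
theorem round_profile : IsProfile π Real.sin := by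
  sorry

/-- T13. -/
theorem round_length {n : ℕ} {v T : ℝ} (hv : 0 < v) (hT : 0 < T)
    {γ : ℝ → EuclideanSpace ℝ (Fin n) × ℝ} (hγ : IsGeodesic π Real.sin v γ)
    (hper : ∀ t, γ (t + T) = γ t) : 2 * π ≤ v * T := by
  sorry

end Pool.Agent.H206R2.Rot.Stubs
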