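import Pool.Agent.H206R2.Rot.Defs

open Real Set MeasureTheory
open scoped ContDiff

namespace Pool.Agent.H206R2.Rot.TA

/-- T1: structure of a profile below its lowest critical value. -/
theorem exists_wall {L : ℝ} {f : ℝ → ℝ} (hf : IsProfile L f) {R₀ : ℝ} (hR : 0 < R₀)
    (hcrit : ∀ r, 0 < r → r < L → deriv f r = 0 → R₀ < f r) :
    ∃ S a b, R₀ < S ∧ Wall L f S a b := by
  have hL := hf.pos
  have hfc : Continuous f := hf.smooth.continuous
  have hdc : Continuous (deriv f) := hf.smooth.continuous_deriv (by simp)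
  have hf0 : f 0 = 0 := by
    have := hf.odd_zero 0
    simp only [neg_zero] at this
    linarith
  have hfL : f L = 0 := by
    have := hf.odd_L 0
    simp only [add_zero, sub_zero] at this
    linarith
  -- the critical set
  set K : Set ℝ := {r | r ∈ Icc 0 L ∧ deriv f r = 0} with hK
  have hKc : IsCompact K := by
    have : K = Icc 0 L ∩ (deriv f) ⁻¹' {0} := by
      ext r; simp [hK]
    rw [this]
    exact isCompact_Icc.inter_right (isClosed_singleton.preimage hdc)
  obtain ⟨c₀, hc₀, hc₀'⟩ := exists_deriv_eq_zero hL hfc.continuousOn (hf0.trans hfL.symm)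
  have hKn : K.Nonempty := ⟨c₀, ⟨hc₀.1.le, hc₀.2.le⟩, hc₀'⟩
  obtain ⟨r₀, hr₀K, hr₀min⟩ := hKc.exists_isMinOn hKn hfc.continuousOn
  have hmin : ∀ r, 0 ≤ r → r ≤ L → deriv f r = 0 → f r₀ ≤ f r := fun r h0 h1 h2 =>
    hr₀min (show r ∈ K from ⟨⟨h0, h1⟩, h2⟩)
  have hr₀0 : 0 < r₀ := by
    rcases hr₀K.1.1.lt_or_eq with h | h
    · exact h
    · exfalso
      have h1 := hr₀K.2
      rw [← h, hf.deriv_zero] at h1
      exact one_ne_zero h1
  have hr₀L : r₀ < L := by
    rcases hr₀K.1.2.lt_or_eq with h | h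
    · exact h
    · exfalso
      have h1 := hr₀K.2
      rw [h, hf.deriv_L] at h1
      norm_num at h1
  have hm : R₀ < f r₀ := hcrit r₀ hr₀0 hr₀L hr₀K.2
  obtain ⟨S, hS1, hS2⟩ := exists_between hm
  have hS0 : 0 < S := hR.trans hS1
  -- the superlevel set
  set U : Set ℝ := {r | r ∈ Icc 0 L ∧ S ≤ f r} with hU
  have hUc : IsCompact U := by
    have : U = Icc 0 L ∩ f ⁻¹' (Ici S) := by
      ext r; simp [hU]
    rw [this]
    exact isCompact_Icc.inter_right (isClosed_Ici.preimage hfc)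
  have hUn : U.Nonempty := ⟨r₀, hr₀K.1, hS2.le⟩
  have ha := hUc.sInf_mem hUn
  have hb := hUc.sSup_mem hUn
  set a := sInf U with hadef
  set b := sSup U with hbdef
  have hlow : ∀ r, 0 ≤ r → r < a → f r < S := by
    intro r h0 h1
    by_contra hcon
    push Not at hcon
    have h2 : r ∈ U := ⟨⟨h0, (h1.le.trans ha.1.2)⟩, hcon⟩
    exact absurd (csInf_le hUc.bddBelow h2) (not_le.mpr h1)
  have hhigh : ∀ r, b < r → r ≤ L → f r < S := by
    intro r h0 h1
    by_contra hcon
    push Not at hcon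
    have h2 : r ∈ U := ⟨⟨hb.1.1.trans h0.le, h1⟩, hcon⟩
    exact absurd (le_csSup hUc.bddAbove h2) (not_le.mpr h0)
  have ha0 : 0 < a := by
    rcases ha.1.1.lt_or_eq with h | h
    · exact h
    · exfalso
      have h1 := ha.2
      rw [← h, hf0] at h1
      linarith
  have hbL : b < L := by
    rcases hb.1.2.lt_or_eq with h | h
    · exact h
    · exfalso
      have h1 := hb.2
      rw [h, hfL] at h1
      linarith
  have har₀ : a ≤ r₀ := csInf_le hUc.bddBelow ⟨hr₀K.1, hS2.le⟩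
  have hbr₀ : r₀ ≤ b := le_csSup hUc.bddAbove ⟨hr₀K.1, hS2.le⟩
  have hfa : f a = S := by
    refine le_antisymm ?_ ha.2
    have hcl : a ∈ closure (Ico 0 a) := by
      rw [closure_Ico ha0.ne]
      exact ⟨ha0.le, le_rfl⟩
    exact closure_minimal (fun r hr => (hlow r hr.1 hr.2).le)
      (isClosed_Iic.preimage hfc) hcl
  have hfb : f b = S := by
    refine le_antisymm ?_ hb.2
    have hcl : b ∈ closure (Ioc b L) := by
      rw [closure_Ioc hbL.ne]
      exact ⟨le_rfl, hbL.le⟩
    exact closure_minimal (fun r hr => (hhigh r hr.1 hr.2).le)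
      (isClosed_Iic.preimage hfc) hcl
  have hlow' : ∀ r, 0 ≤ r → r ≤ a → f r ≤ S := by
    intro r h0 h1
    rcases h1.lt_or_eq with h | h
    · exact (hlow r h0 h).le
    · rw [h, hfa]
  have hhigh' : ∀ r, b ≤ r → r ≤ L → f r ≤ S := by
    intro r h0 h1
    rcases h0.lt_or_eq with h | h
    · exact (hhigh r h h1).le
    · rw [← h, hfb]
  refine ⟨S, a, b, hS1, hS0, ha0, har₀.trans hbr₀, hbL, hfa, hfb, ?_, ?_, ?_⟩
  · intro r h0 h1
    by_contra hcon
    push Not at hcon
    -- zero of the derivative on [0, r]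
    have hiv : (0 : ℝ) ∈ deriv f '' Icc 0 r :=
      intermediate_value_Icc' h0 hdc.continuousOn ⟨hcon, by rw [hf.deriv_zero]; exact zero_le_one⟩
    obtain ⟨z, hz, hz'⟩ := hiv
    have h2 := hmin z hz.1 (hz.2.trans (h1.trans ha.1.2)) hz'
    have h3 := hlow' z hz.1 (hz.2.trans h1)
    linarith
  · intro r h0 h1
    by_contra hcon
    push Not at hcon
    have hiv : (0 : ℝ) ∈ deriv f '' Icc r L :=
      intermediate_value_Icc' h1 hdc.continuousOn
        ⟨by rw [hf.deriv_L]; norm_num, hcon⟩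
    obtain ⟨z, hz, hz'⟩ := hiv
    have h2 := hmin z (hb.1.1.trans (h0.trans hz.1)) hz.2 hz'
    have h3 := hhigh' z (h0.trans hz.1) hz.2
    linarith
  · intro r h0 h1
    obtain ⟨z, hz, hzmin⟩ := (isCompact_Icc (a := a) (b := b)).exists_isMinOn
      ⟨r, h0, h1⟩ hfc.continuousOn
    have hzr : f z ≤ f r := hzmin (show r ∈ Icc a b from ⟨h0, h1⟩)
    rcases hz.1.lt_or_eq with h2 | h2
    · rcases hz.2.lt_or_eq with h3 | h3
      · have hloc : IsLocalMin f z := by
          refine hzmin.isLocalMin (Icc_mem_nhds h2 h3)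
        have h4 := hmin z (ha0.le.trans h2.le) (h3.le.trans hbL.le) hloc.deriv_eq_zero
        linarith
      · rw [h3, hfb] at hzr; exact hzr
    · rw [← h2, hfa] at hzr; exact hzr

end Pool.Agent.H206R2.Rot.TA
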